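import Pool.Agent.H16.TK.Stmt2

/-! COMP: the composition lemma. -/

set_option autoImplicit false

open Set

namespace Pool.Agent.TK

/-- hypotheses of the composition lemma -/
private structure CompHyp {C : Type} (c0 : C) (M M' : St C) (y : Set ℕ) (a : ℕ → List ℕ)
    (D : ℕ → Set ℕ) : Prop where
  val : Valid c0 M
  val' : Valid c0 M'
  disj : ∀ i ∈ y, ∀ j ∈ y, ∀ x, x ∈ D i → x ∈ D j → i = j
  bdry : ∀ i ∈ y, ∀ x ∈ a i, ∀ j ∈ y, x ∉ D j
  nb : ∀ i ∈ y, Nb M (D i) ⊆ ms (a i)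
  nb' : ∀ i ∈ y, Nb M' (D i) ⊆ ms (a i)
  out1 : ∀ u v, (∀ i ∈ y, u ∉ D i) → (∀ i ∈ y, v ∉ D i) → M.1 u v = M'.1 u v
  out2 : ∀ l : List ℕ, (∀ u ∈ l, ∀ i ∈ y, u ∉ D i) → M.2 l = M'.2 l

/-- the invariant of the composed game -/
private def CInv {C : Type} (M M' : St C) (y : Set ℕ) (a : ℕ → List ℕ)
    (D : ℕ → Set ℕ) (r : Rk) (p : List (ℕ × ℕ)) : Prop :=
  (∀ q ∈ p, (q.1 = q.2 ∧ ∀ i ∈ y, q.1 ∉ D i) ∨ ∃ i ∈ y, q.1 ∈ D i ∧ q.2 ∈ D i) ∧
  ∀ i ∈ y, ∃ s : List (ℕ × ℕ), (∀ q ∈ p, q.1 ∈ D i → q ∈ s) ∧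
    bf M M' (D i) (D i) r (s ++ dg (a i))

variable {C : Type} {c0 : C} {M M' : St C} {y : Set ℕ} {a : ℕ → List ℕ} {D : ℕ → Set ℕ}

/-- no edge leaves `D i` except into `a i` -/
private lemma no_edge_of_nb (hM : Valid c0 M) {E : Set ℕ} {b : List ℕ} (h : Nb M E ⊆ ms b) {u v : ℕ}
    (hu : u ∈ E) (hv : v ∉ E) (hvb : v ∉ b) : M.1 u v = false := by
  by_contra hc
  rw [Bool.not_eq_false] at hc
  exact hvb (h ⟨hv, u, hu, by rw [hM.1]; exact hc⟩)

private lemma no_edge_of_nb' (hM : Valid c0 M) {E : Set ℕ} {b : List ℕ} (h : Nb M E ⊆ ms b) {u v : ℕ}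
    (hu : u ∈ E) (hv : v ∉ E) (hvb : v ∉ b) : M.1 v u = false := by
  rw [hM.1]; exact no_edge_of_nb hM h hu hv hvb

/-- no value leaves `D i ∪ a i` -/
private lemma no_val_of_nb (hM : Valid c0 M) {E : Set ℕ} {b : List ℕ} (h : Nb M E ⊆ ms b) {l : List ℕ}
    {u v : ℕ} (hul : u ∈ l) (hvl : v ∈ l) (hu : u ∈ E) (hv : v ∉ E) (hvb : v ∉ b) :
    M.2 l = c0 := by
  by_contra hc
  have h1 := hM.2.2 l hc u hul v hvl (fun h => hv (h ▸ hu))
  rw [no_edge_of_nb hM h hu hv hvb] at h1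
  exact Bool.false_ne_true h1

/-- where the second point is -/
private lemma CompHyp.side (H : CompHyp c0 M M' y a D) {q : ℕ × ℕ}
    (hq : (q.1 = q.2 ∧ ∀ i ∈ y, q.1 ∉ D i) ∨ ∃ i ∈ y, q.1 ∈ D i ∧ q.2 ∈ D i) {i : ℕ} (hi : i ∈ y) :
    (q.1 ∈ D i ↔ q.2 ∈ D i) ∧ (q.1 ∈ a i ↔ q.2 ∈ a i) := by
  rcases hq with ⟨h1, h2⟩ | ⟨j, hj, h1, h2⟩
  · rw [h1]; exact ⟨Iff.rfl, Iff.rfl⟩
  · refine ⟨⟨fun h => ?_, fun h => ?_⟩, ⟨fun h => ?_, fun h => ?_⟩⟩
    · rw [H.disj i hi j hj _ h h1]; exact h2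
    · rw [H.disj i hi j hj _ h h2]; exact h1
    · exact absurd h1 (H.bdry i hi _ h j hj)
    · exact absurd h2 (H.bdry i hi _ h j hj)

private lemma CInv.pi (H : CompHyp c0 M M' y a D) {r : Rk} {p : List (ℕ × ℕ)}
    (hI : CInv M M' y a D r p) : PI M M' p := by
  obtain ⟨h1, h2⟩ := hI
  have hside := fun q hq i hi => H.side (h1 q hq) (i := i) hi
  have hloc : ∀ q ∈ p, ∀ i ∈ y, q.1 ∈ a i → q ∈ dg (a i) := by
    intro q hq i hi ha
    rcases h1 q hq with ⟨h3, -⟩ | ⟨j, hj, h3, -⟩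
    · exact mem_dg.2 ⟨h3, ha⟩
    · exact absurd h3 (H.bdry i hi _ ha j hj)
  refine ⟨?_, ?_, ?_⟩
  · intro q hq q' hq'
    rcases h1 q hq with ⟨h3, h4⟩ | ⟨i, hiy, hi, hi'⟩
    · rcases h1 q' hq' with ⟨h5, h6⟩ | ⟨j, hjy, hj, hj'⟩
      · rw [h3, h5]
      · refine ⟨fun h7 => (h4 j hjy (h7 ▸ hj)).elim, fun h7 => (h4 j hjy ?_).elim⟩
        rw [h3, h7]; exact hj'
    · rcases h1 q' hq' with ⟨h5, h6⟩ | ⟨j, hjy, hj, hj'⟩
      · refine ⟨fun h7 => (h6 i hiy (h7 ▸ hi)).elim, fun h7 => (h6 i hiy ?_).elim⟩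
        rw [h5, ← h7]; exact hi'
      · by_cases hij : i = j
        · subst hij
          obtain ⟨s, hs, hbf⟩ := h2 i hiy
          exact (bf_PI hbf).1 q (List.mem_append_left _ (hs q hq hi)) q'
            (List.mem_append_left _ (hs q' hq' hj))
        · exact ⟨fun h7 => (hij (H.disj i hiy j hjy _ hi (h7 ▸ hj))).elim,
            fun h7 => (hij (H.disj i hiy j hjy _ hi' (h7 ▸ hj'))).elim⟩
  · have aux : ∀ q ∈ p, ∀ q' ∈ p, ∀ i ∈ y, q.1 ∈ D i → M.1 q.1 q'.1 = M'.1 q.2 q'.2 := by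
      intro q hq q' hq' i hi hqi
      have hqi' := (hside q hq i hi).1.1 hqi
      by_cases hD : q'.1 ∈ D i
      · obtain ⟨s, hs, hbf⟩ := h2 i hi
        exact (bf_PI hbf).2.1 q (List.mem_append_left _ (hs q hq hqi)) q'
          (List.mem_append_left _ (hs q' hq' hD))
      · by_cases hA : q'.1 ∈ a i
        · obtain ⟨s, hs, hbf⟩ := h2 i hi
          exact (bf_PI hbf).2.1 q (List.mem_append_left _ (hs q hq hqi)) q'
            (List.mem_append_right _ (hloc q' hq' i hi hA))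
        · rw [no_edge_of_nb H.val (H.nb i hi) hqi hD hA,
            no_edge_of_nb H.val' (H.nb' i hi) hqi' (fun h => hD ((hside q' hq' i hi).1.2 h))
              (fun h => hA ((hside q' hq' i hi).2.2 h))]
    intro q hq q' hq'
    by_cases hc : ∃ i ∈ y, q.1 ∈ D i
    · obtain ⟨i, hi, hqi⟩ := hc
      exact aux q hq q' hq' i hi hqi
    · by_cases hc' : ∃ i ∈ y, q'.1 ∈ D i
      · obtain ⟨i, hi, hqi⟩ := hc'
        rw [H.val.1, H.val'.1]
        exact aux q' hq' q hq i hi hqi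
      · push Not at hc hc'
        rcases h1 q hq with ⟨h3, -⟩ | ⟨j, hjy, hj, -⟩
        · rcases h1 q' hq' with ⟨h5, -⟩ | ⟨j, hjy, hj, -⟩
          · rw [← h3, ← h5]; exact H.out1 _ _ hc hc'
          · exact absurd hj (hc' j hjy)
        · exact absurd hj (hc j hjy)
  · intro l hl
    by_cases hcase : ∃ q ∈ l, ∃ i ∈ y, q.1 ∈ D i
    · obtain ⟨q0, hq0, i, hiy, hi⟩ := hcase
      have hq0' := (hside q0 (hl q0 hq0) i hiy).1.1 hi
      by_cases hin : ∀ q ∈ l, q.1 ∈ D i ∨ q.1 ∈ a i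
      · obtain ⟨s, hs, hbf⟩ := h2 i hiy
        refine (bf_PI hbf).2.2 l fun q hq => ?_
        rcases hin q hq with h3 | h3
        · exact List.mem_append_left _ (hs q (hl q hq) h3)
        · exact List.mem_append_right _ (hloc q (hl q hq) i hiy h3)
      · push Not at hin
        obtain ⟨q1, hq1, h3, h4⟩ := hin
        have h5 := hside q1 (hl q1 hq1) i hiy
        rw [no_val_of_nb H.val (H.nb i hiy) (List.mem_map_of_mem hq0) (List.mem_map_of_mem hq1)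
          hi h3 h4, no_val_of_nb H.val' (H.nb' i hiy) (List.mem_map_of_mem hq0)
          (List.mem_map_of_mem hq1) hq0' (fun h => h3 (h5.1.2 h)) (fun h => h4 (h5.2.2 h))]
    · push Not at hcase
      have h3 : l.map Prod.fst = l.map Prod.snd := by
        apply List.map_congr_left
        intro q hq
        rcases h1 q (hl q hq) with ⟨h4, -⟩ | ⟨j, hjy, hj, -⟩
        · exact h4
        · exact (hcase q hq j hjy hj).elim
      rw [← h3]
      refine H.out2 _ fun x hx i hi => ?_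
      obtain ⟨q, hq, rfl⟩ := List.mem_map.1 hx
      exact hcase q hq i hi

/-- one step: a pair inside `D i` -/
private lemma CInv.cons_in (H : CompHyp c0 M M' y a D) {r r' : Rk} {p : List (ℕ × ℕ)}
    (hI : CInv M M' y a D r p) (hr : RLe C r' r) {i : ℕ} (hi : i ∈ y) {u v : ℕ} (hu : u ∈ D i)
    (hv : v ∈ D i) {s : List (ℕ × ℕ)} (hs : ∀ q ∈ p, q.1 ∈ D i → q ∈ s)
    (hbf : bf M M' (D i) (D i) r' ((u, v) :: (s ++ dg (a i)))) :
    CInv M M' y a D r' ((u, v) :: p) := by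
  refine ⟨?_, ?_⟩
  · intro q hq
    rcases List.mem_cons.1 hq with rfl | hq
    · exact Or.inr ⟨i, hi, hu, hv⟩
    · exact hI.1 q hq
  · intro j hj
    by_cases hij : i = j
    · subst hij
      refine ⟨(u, v) :: s, ?_, hbf⟩
      intro q hq hqi
      rcases List.mem_cons.1 hq with rfl | hq
      · exact List.mem_cons_self
      · exact List.mem_cons_of_mem _ (hs q hq hqi)
    · obtain ⟨sj, hsj, hbfj⟩ := hI.2 j hj
      refine ⟨sj, ?_, hr _ _ _ _ _ hbfj⟩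
      intro q hq hqj
      rcases List.mem_cons.1 hq with rfl | hq
      · exact (hij (H.disj i hi j hj _ hu hqj)).elim
      · exact hsj q hq hqj

/-- one step: a point outside of all pieces -/
private lemma CInv.cons_out {r r' : Rk} {p : List (ℕ × ℕ)}
    (hI : CInv M M' y a D r p) (hr : RLe C r' r) {u : ℕ} (hu : ∀ i ∈ y, u ∉ D i) :
    CInv M M' y a D r' ((u, u) :: p) := by
  refine ⟨?_, ?_⟩
  · intro q hq
    rcases List.mem_cons.1 hq with rfl | hq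
    · exact Or.inl ⟨rfl, hu⟩
    · exact hI.1 q hq
  · intro j hj
    obtain ⟨sj, hsj, hbfj⟩ := hI.2 j hj
    refine ⟨sj, ?_, hr _ _ _ _ _ hbfj⟩
    intro q hq hqj
    rcases List.mem_cons.1 hq with rfl | hq
    · exact absurd hqj (hu j hj)
    · exact hsj q hq hqj

private lemma CInv.mono {r r' : Rk} {p : List (ℕ × ℕ)}
    (hI : CInv M M' y a D r p) (hr : RLe C r' r) : CInv M M' y a D r' p :=
  ⟨hI.1, fun i hi => by
    obtain ⟨s, hs, h⟩ := hI.2 i hi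
    exact ⟨s, hs, hr _ _ _ _ _ h⟩⟩

private lemma CInv.bf (H : CompHyp c0 M M' y a D) {U : Set ℕ}
    (hU : ∀ i ∈ y, ∀ u ∈ D i, u ∈ U → D i ⊆ U) (r : Rk) :
    ∀ p, CInv M M' y a D r p → TK.bf M M' U U r p := by
  induction r with
  | zero => intro p hI; exact hI.pi H
  | sup f ih =>
    intro p hI n
    refine ⟨ih n _ (hI.mono (RLe.sup f n)), ?_, ?_⟩
    · intro x hx
      by_cases hcase : ∃ i ∈ y, x ∈ D i
      · obtain ⟨i, hi, hxi⟩ := hcase
        obtain ⟨s, hs, hbf⟩ := hI.2 i hi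
        obtain ⟨z, hz, h1⟩ := (hbf n).2.1 x hxi
        exact ⟨z, hU i hi x hxi hx hz, ih n _ (hI.cons_in H (RLe.sup f n) hi hxi hz hs h1)⟩
      · push Not at hcase
        exact ⟨x, hx, ih n _ (hI.cons_out (RLe.sup f n) hcase)⟩
    · intro z hz
      by_cases hcase : ∃ i ∈ y, z ∈ D i
      · obtain ⟨i, hi, hzi⟩ := hcase
        obtain ⟨s, hs, hbf⟩ := hI.2 i hi
        obtain ⟨x, hx, h1⟩ := (hbf n).2.2 z hzi
        exact ⟨x, hU i hi z hzi hz hx, ih n _ (hI.cons_in H (RLe.sup f n) hi hx hzi hs h1)⟩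
      · push Not at hcase
        exact ⟨z, hz, ih n _ (hI.cons_out (RLe.sup f n) hcase)⟩

theorem pf_COMP {C : Type} {c0 : C} : COMP C c0 := by
  intro M M' y a D r hM hM' hdisj hA hN hN' h1 h2 hbf U hU k hk
  have H : CompHyp c0 M M' y a D := by
    refine ⟨hM, hM', ?_, ?_, hN, hN', h1, h2⟩
    · intro i hi j hj x hx hx'
      by_contra hij
      exact Set.disjoint_left.1 (hdisj i hi j hj hij) hx hx'
    · intro i hi x hx j hj hxj
      exact Set.disjoint_left.1 (hA i hi j hj) hx hxj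
  refine CInv.bf H ?_ r _ ⟨?_, ?_⟩
  · intro i hi u hu huU
    rcases hU i hi with h | h
    · exact h
    · exact absurd huU (Set.disjoint_left.1 h hu)
  · intro q hq
    obtain ⟨h3, h4⟩ := mem_dg.1 hq
    exact Or.inl ⟨h3, hk _ h4⟩
  · intro i hi
    refine ⟨[], ?_, by simpa using hbf i hi⟩
    intro q hq hqi
    exact absurd hqi (hk _ (mem_dg.1 hq).2 i hi)

end Pool.Agent.TK
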