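import Pool.Agent.H16.TK.Stmt2

/-! SC1: a rank which decides back-and-forth equivalence inside one flap. -/

set_option autoImplicit false

open Set

namespace Pool.Agent.TK

theorem pf_SC1 {C : Type} : SC1 C := by
  classical
  intro M a D
  obtain ⟨e, he⟩ := exists_surjective_nat (List (ℕ × ℕ))
  refine ⟨Rk.sup (fun n => if h : ∃ r, ¬ bf M M D D r (e n) then h.choose else Rk.zero), ?_⟩
  intro p _ hp
  by_contra hc
  push Not at hc
  obtain ⟨n, rfl⟩ := he p
  have h1 := (hp n).1
  beta_reduce at h1
  rw [dif_pos hc] at h1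
  exact hc.choose_spec h1

end Pool.Agent.TK
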