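import Pool.Agent.H16.TK.Stmt2

/-! SC2: the zig-zag construction. -/

set_option autoImplicit false

open Set

namespace Pool.Agent.TK

theorem pf_SC2 {C : Type} : SC2 C := by
  classical
  intro M M' D D' Q p0 hp0 hPI hforth hback
  have hstep : ∀ (n : ℕ) (p : {p : List (ℕ × ℕ) // Q p}), ∃ q : {p : List (ℕ × ℕ) // Q p},
      (∀ z ∈ p.1, z ∈ q.1) ∧ (∀ z ∈ q.1, z ∈ p.1 ∨ (z.1 ∈ D ∧ z.2 ∈ D')) ∧
      (n ∈ D → ∃ d ∈ D', (n, d) ∈ q.1) ∧ (n ∈ D' → ∃ c ∈ D, (c, n) ∈ q.1) := by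
    intro n p
    obtain ⟨q1, h11, h12, h13⟩ : ∃ q : {p : List (ℕ × ℕ) // Q p},
        (∀ z ∈ p.1, z ∈ q.1) ∧ (∀ z ∈ q.1, z ∈ p.1 ∨ (z.1 ∈ D ∧ z.2 ∈ D')) ∧
        (n ∈ D → ∃ d ∈ D', (n, d) ∈ q.1) := by
      by_cases hn : n ∈ D
      · obtain ⟨d, hd, h⟩ := hforth p.1 p.2 n hn
        refine ⟨⟨_, h⟩, fun z hz => List.mem_cons_of_mem _ hz, ?_,
          fun _ => ⟨d, hd, List.mem_cons_self⟩⟩
        intro z hz
        rcases List.mem_cons.1 hz with rfl | hz
        · exact Or.inr ⟨hn, hd⟩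
        · exact Or.inl hz
      · exact ⟨p, fun z hz => hz, fun z hz => Or.inl hz, fun h => absurd h hn⟩
    by_cases hn : n ∈ D'
    · obtain ⟨c, hc, h⟩ := hback q1.1 q1.2 n hn
      refine ⟨⟨_, h⟩, fun z hz => List.mem_cons_of_mem _ (h11 z hz), ?_, ?_,
        fun _ => ⟨c, hc, List.mem_cons_self⟩⟩
      · intro z hz
        rcases List.mem_cons.1 hz with rfl | hz
        · exact Or.inr ⟨hc, hn⟩
        · exact h12 z hz
      · intro hnD
        obtain ⟨d, hd, h⟩ := h13 hnD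
        exact ⟨d, hd, List.mem_cons_of_mem _ h⟩
    · exact ⟨q1, h11, h12, h13, fun h => absurd h hn⟩
  choose step hs1 hs2 hs3 hs4 using hstep
  let P : ℕ → {p : List (ℕ × ℕ) // Q p} := fun n =>
    Nat.rec ⟨p0, hp0⟩ (fun n p => step n p) n
  have hP0 : (P 0).1 = p0 := rfl
  have hPs : ∀ n, P (n + 1) = step n (P n) := fun n => rfl
  have hmono : ∀ m n, m ≤ n → ∀ z ∈ (P m).1, z ∈ (P n).1 := by
    intro m n hmn
    induction hmn with
    | refl => exact fun z hz => hz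
    | step h ih => intro z hz; rw [hPs]; exact hs1 _ _ z (ih z hz)
  have hc : ∀ c ∈ D, ∃ d ∈ D', (c, d) ∈ (P (c + 1)).1 := by
    intro c hc
    rw [hPs]; exact hs3 _ _ hc
  have hd : ∀ d ∈ D', ∃ c ∈ D, (c, d) ∈ (P (d + 1)).1 := by
    intro d hd
    rw [hPs]; exact hs4 _ _ hd
  let h : ℕ → ℕ := fun c => if hcD : c ∈ D then (hc c hcD).choose else 0
  have hh : ∀ c ∈ D, h c ∈ D' ∧ (c, h c) ∈ (P (c + 1)).1 := by
    intro c hcD
    have : h c = (hc c hcD).choose := dif_pos hcD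
    rw [this]
    exact (hc c hcD).choose_spec
  have key : ∀ N, PI M M' (P N).1 := fun N => hPI _ (P N).2
  refine ⟨h, ⟨fun c hc => (hh c hc).1, ?_, ?_⟩, ?_⟩
  · intro c hc c' hc' hcc
    have h1 := hmono _ (max (c + 1) (c' + 1)) (le_max_left _ _) _ (hh c hc).2
    have h2 := hmono _ (max (c + 1) (c' + 1)) (le_max_right _ _) _ (hh c' hc').2
    exact ((key _).1 _ h1 _ h2).2 hcc
  · intro d hdD
    obtain ⟨c, hcD, h1⟩ := hd d hdD
    refine ⟨c, hcD, ?_⟩
    have h1 := hmono _ (max (d + 1) (c + 1)) (le_max_left _ _) _ h1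
    have h2 := hmono _ (max (d + 1) (c + 1)) (le_max_right _ _) _ (hh c hcD).2
    exact ((key _).1 _ h2 _ h1).1 rfl
  · intro x hx
    have : ∃ N, ∀ z ∈ x, (z, h z) ∈ (P N).1 := by
      induction x with
      | nil => exact ⟨0, by simp⟩
      | cons a x ih =>
        obtain ⟨N, hN⟩ := ih (fun z hz => hx z (List.mem_cons_of_mem _ hz))
        refine ⟨max N (a + 1), ?_⟩
        intro z hz
        rcases List.mem_cons.1 hz with rfl | hz
        · exact hmono _ _ (le_max_right _ _) _ (hh z (hx z List.mem_cons_self)).2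
        · exact hmono _ _ (le_max_left _ _) _ (hN z hz)
    obtain ⟨N, hN⟩ := this
    refine (key N).mono ?_
    intro z hz
    simp only [List.mem_append, List.mem_map] at hz
    rcases hz with hz | ⟨w, hw, rfl⟩
    · exact hmono 0 N (Nat.zero_le _) z hz
    · exact hN w hw

end Pool.Agent.TK
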