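import Pool.Agent.H16.TK.Stmt2

/-! SCO: Scott's isomorphism theorem for flaps. -/

set_option autoImplicit false

open Set

namespace Pool.Agent.TK

theorem pf_SCO {C : Type} (hSC1 : SC1 C) (hSC2 : SC2 C) : SCO C := by
  intro M a D
  obtain ⟨r0, hr0⟩ := hSC1 M a D
  refine ⟨Rk.lim (Rk.suc r0), ?_⟩
  rintro M' a' D' ⟨hlen, hF⟩
  -- the positions
  let Q : List (ℕ × ℕ) → Prop := fun p => ∃ x x' : List ℕ, x.length = x'.length ∧
    (∀ z ∈ x, z ∈ D) ∧ (∀ z ∈ x', z ∈ D') ∧ p = x.zip x' ++ a.zip a' ∧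
    bf M M' D D' r0 (x.zip x' ++ a.zip a')
  have key : ∀ x x' : List ℕ, x.length = x'.length → (∀ z ∈ x, z ∈ D) → (∀ z ∈ x', z ∈ D') →
      bf M M' D D' r0 (x.zip x' ++ a.zip a') →
      bf M M' D D' (Rk.suc r0) (x.zip x' ++ a.zip a') := by
    intro x x' hx hxD hxD' h
    obtain ⟨z, hz, hzD, h1⟩ := lim_ext' hF x' hxD'
    have e1 : x.zip x' ++ a.zip a' = (x ++ a).zip (x' ++ a') := (List.zip_append hx).symm
    have e2 : z.zip x' ++ a.zip a' = (z ++ a).zip (x' ++ a') := (List.zip_append hz).symm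
    rw [e1] at h ⊢
    rw [e2] at h1
    have h2 : bf M' M D' D r0 ((x' ++ a').zip (z ++ a)) := by
      have := bf_symm (RLe.suc (C := C) r0 _ _ _ _ _ h1)
      rwa [swap_zip] at this
    have l1 : (x ++ a).length = (x' ++ a').length := by simp [hx, hlen]
    have l2 : (x' ++ a').length = (z ++ a).length := by simp [hz, hlen]
    have h3 : bf M M D D r0 ((x ++ a).zip (z ++ a)) := bf_trans l1 l2 h h2
    have h4 := hr0 _ (by
      intro w hw
      have hw1 := List.of_mem_zip (show (w.1, w.2) ∈ (x ++ a).zip (z ++ a) from hw)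
      simp only [List.mem_append] at hw1
      refine ⟨?_, ?_⟩
      · rcases hw1.1 with h | h
        · exact Or.inl (hxD _ h)
        · exact Or.inr h
      · rcases hw1.2 with h | h
        · exact Or.inl (hzD _ h)
        · exact Or.inr h) h3 (Rk.suc r0)
    exact bf_trans (l1.trans l2) l2.symm h4 h1
  obtain ⟨h, hb, hPI⟩ := hSC2 M M' D D' Q (a.zip a')
    ⟨[], [], rfl, by simp, by simp, rfl, by
      have := RLe.trans (RLe.suc (C := C) r0) (RLe.lim (Rk.suc r0)) _ _ _ _ _ hF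
      simpa using this⟩
    (by
      rintro p ⟨x, x', hx, hxD, hxD', rfl, h⟩
      exact bf_PI h)
    (by
      rintro p ⟨x, x', hx, hxD, hxD', rfl, h⟩ c hc
      obtain ⟨_, h2, _⟩ := key x x' hx hxD hxD' h 0
      obtain ⟨d, hd, h'⟩ := h2 c hc
      refine ⟨d, hd, c :: x, d :: x', by simp [hx], ?_, ?_, rfl, h'⟩
      · intro z hz; rcases List.mem_cons.1 hz with rfl | hz; exacts [hc, hxD z hz]
      · intro z hz; rcases List.mem_cons.1 hz with rfl | hz; exacts [hd, hxD' z hz])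
    (by
      rintro p ⟨x, x', hx, hxD, hxD', rfl, h⟩ d hd
      obtain ⟨_, _, h3⟩ := key x x' hx hxD hxD' h 0
      obtain ⟨c, hc, h'⟩ := h3 d hd
      refine ⟨c, hc, c :: x, d :: x', by simp [hx], ?_, ?_, rfl, h'⟩
      · intro z hz; rcases List.mem_cons.1 hz with rfl | hz; exacts [hc, hxD z hz]
      · intro z hz; rcases List.mem_cons.1 hz with rfl | hz; exacts [hd, hxD' z hz])
  exact ⟨h, hlen, hb, hPI⟩

end Pool.Agent.TK
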