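import Pool.Agent.H16.TK.Stmt2

/-! TYC: countably many types of every rank. -/

set_option autoImplicit false

open Set

namespace Pool.Agent.TK

/-- a measurable invariant of tuples -/
private def MInv {C : Type} [MeasurableSpace C] {I : Type} (G : List ℕ → St C → I → Bool) : Prop :=
  (∀ x i, Measurable fun M => G x M i) ∧
  ∀ (h : Equiv.Perm ℕ) (M N : St C) (x : List ℕ), IsoH h M N → ∀ i, G x M i = G (x.map h) N i

private lemma MInv.toNat {C : Type} [MeasurableSpace C] {I : Type} [Countable I] [Nonempty I]
    {G : List ℕ → St C → I → Bool} (hG : MInv G) :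
    ∃ Θ : List ℕ → St C → ℕ → Bool, MInv Θ ∧
      ∀ x y M N, Θ x M = Θ y N → ∀ i, G x M i = G y N i := by
  obtain ⟨e, he⟩ := exists_surjective_nat I
  refine ⟨fun x M k => G x M (e k), ⟨fun x k => hG.1 x (e k), fun h M N x hh k => hG.2 h M N x hh _⟩,
    ?_⟩
  intro x y M N h i
  obtain ⟨k, rfl⟩ := he i
  exact congrFun h k

private lemma MInv.measurable {C : Type} [MeasurableSpace C] {Θ : List ℕ → St C → ℕ → Bool}
    (h : MInv Θ) (x : List ℕ) : Measurable (Θ x) :=
  measurable_pi_iff.2 fun i => h.1 x i

/-- the sublist of `x` with indices from `l` -/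
private def pick (x : List ℕ) (l : List ℕ) : List ℕ := l.filterMap (fun i => x[i]?)

private lemma pick_map (x : List ℕ) (l : List ℕ) (h : ℕ → ℕ) : pick (x.map h) l = (pick x l).map h := by
  induction l with
  | nil => rfl
  | cons i l ih =>
    simp only [pick, List.filterMap_cons, List.getElem?_map] at *
    cases x[i]? with
    | none => simpa using ih
    | some z => simpa using ih

private lemma exists_indices (x y : List ℕ) (hxy : x.length = y.length) :
    ∀ q : List (ℕ × ℕ), (∀ z ∈ q, z ∈ x.zip y) →
      ∃ l : List ℕ, pick x l = q.map Prod.fst ∧ pick y l = q.map Prod.snd := by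
  intro q
  induction q with
  | nil => intro _; exact ⟨[], rfl, rfl⟩
  | cons z q ih =>
    intro hq
    obtain ⟨l, h1, h2⟩ := ih (fun z hz => hq z (List.mem_cons_of_mem _ hz))
    obtain ⟨i, hi, hiz⟩ := List.mem_iff_getElem.1 (hq z List.mem_cons_self)
    rw [List.getElem_zip] at hiz
    have hi' : i < x.length ∧ i < y.length := by
      rw [List.length_zip] at hi; omega
    refine ⟨i :: l, ?_, ?_⟩
    · simp only [pick, List.filterMap_cons, List.map_cons] at *
      rw [List.getElem?_eq_getElem hi'.1]
      simp only [List.cons.injEq]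
      exact ⟨congrArg Prod.fst hiz, h1⟩
    · simp only [pick, List.filterMap_cons, List.map_cons] at *
      rw [List.getElem?_eq_getElem hi'.2]
      simp only [List.cons.injEq]
      exact ⟨congrArg Prod.snd hiz, h2⟩

/-- the atomic code of a tuple -/
private noncomputable def atm {C : Type} [MeasurableSpace C]
    [MeasurableSpace.CountablyGenerated C] (x : List ℕ) (M : St C) :
    (List ℕ ⊕ List ℕ) ⊕ (List ℕ × ℕ) → Bool
  | .inl (.inl l) => match pick x l with
    | u :: v :: _ => decide (u = v)
    | _ => false
  | .inl (.inr l) => match pick x l with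
    | u :: v :: _ => M.1 u v
    | _ => false
  | .inr (l, k) => MeasurableSpace.mapNatBool C (M.2 (pick x l)) k

private lemma atm_inv {C : Type} [MeasurableSpace C] [MeasurableSpace.CountablyGenerated C] :
    MInv (atm (C := C)) := by
  refine ⟨?_, ?_⟩
  · rintro x ((l | l) | ⟨l, k⟩)
    · exact measurable_const
    · simp only [atm]
      split
      · rename_i u v _ _
        exact (measurable_pi_apply v).comp ((measurable_pi_apply u).comp measurable_fst)
      · exact measurable_const
    · simp only [atm]
      exact (measurable_pi_apply k).comp ((MeasurableSpace.measurable_mapNatBool C).comp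
        ((measurable_pi_apply _).comp measurable_snd))
  · rintro h M N x ⟨h1, h2⟩ ((l | l) | ⟨l, k⟩)
    · simp only [atm, pick_map]
      match pick x l with
      | [] => rfl
      | [u] => rfl
      | u :: v :: w => simp
    · simp only [atm, pick_map]
      match pick x l with
      | [] => rfl
      | [u] => rfl
      | u :: v :: w => simpa using h1 u v
    · simp only [atm, pick_map]
      rw [h2]

private lemma atm_PI {C : Type} [MeasurableSpace C] [MeasurableSpace.CountablyGenerated C]
    [MeasurableSpace.SeparatesPoints C] {M N : St C} {x y : List ℕ} (hxy : x.length = y.length)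
    (h : ∀ i, atm x M i = atm y N i) : PI M N (x.zip y) := by
  refine ⟨?_, ?_, ?_⟩
  · intro z hz w hw
    obtain ⟨l, h1, h2⟩ := exists_indices x y hxy [z, w] (by
      intro t ht
      simp only [List.mem_cons, List.not_mem_nil, or_false] at ht
      rcases ht with rfl | rfl
      exacts [hz, hw])
    have h3 := h (.inl (.inl l))
    simp only [atm, h1, h2, List.map_cons, List.map_nil] at h3
    simpa using h3
  · intro z hz w hw
    obtain ⟨l, h1, h2⟩ := exists_indices x y hxy [z, w] (by
      intro t ht
      simp only [List.mem_cons, List.not_mem_nil, or_false] at ht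
      rcases ht with rfl | rfl
      exacts [hz, hw])
    have h3 := h (.inl (.inr l))
    simp only [atm, h1, h2, List.map_cons, List.map_nil] at h3
    simpa using h3
  · intro q hq
    obtain ⟨l, h1, h2⟩ := exists_indices x y hxy q hq
    apply MeasurableSpace.injective_mapNatBool C
    funext k
    have h3 := h (.inr (l, k))
    simp only [atm, h1, h2] at h3
    exact h3

/-- the invariant which decides types of rank `r` -/
private lemma exists_inv {C : Type} [MeasurableSpace C] [StandardBorelSpace C] (hTHN : THN C)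
    {X : Set (St C)} (hX : MeasurableSet X) (hNF : NoFam X) (r : Rk) :
    ∃ Θ : List ℕ → St C → ℕ → Bool, MInv Θ ∧
      ∀ M ∈ X, ∀ N ∈ X, ∀ x y, x.length = y.length → Θ x M = Θ y N →
        bf M N univ univ r (x.zip y) := by
  induction r with
  | zero =>
    obtain ⟨Θ, h1, h2⟩ := (atm_inv (C := C)).toNat
    exact ⟨Θ, h1, fun M _ N _ x y hxy h => atm_PI hxy (h2 _ _ _ _ h)⟩
  | sup f ih =>
    classical
    choose Θ hΘ hbf using ih
    have hcount : ∀ n, ∃ e : ℕ → ℕ → Bool, ∀ x, ∀ M ∈ X, ∃ j, e j = Θ n x M := by
      intro n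
      have h1 := hTHN X hX hNF (Θ n) (hΘ n).measurable
        (fun h M _ N _ x hh => funext fun i => (hΘ n).2 h M N x hh i)
      obtain ⟨e, he⟩ := (h1.union (countable_singleton (fun _ => false))).exists_eq_range
        ⟨_, Or.inr rfl⟩
      refine ⟨e, fun x M hM => ?_⟩
      have : Θ n x M ∈ range e := by
        rw [← he]; exact Or.inl ⟨x, M, hM, rfl⟩
      exact this
    choose e he using hcount
    let G : List ℕ → St C → (ℕ × ℕ) ⊕ (ℕ × ℕ) → Bool := fun x M i =>
      match i with
      | .inl (n, j) => Θ n x M j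
      | .inr (n, j) => decide (∃ c, Θ n (c :: x) M = e n j)
    have hG : MInv G := by
      refine ⟨?_, ?_⟩
      · rintro x (⟨n, j⟩ | ⟨n, j⟩)
        · exact (hΘ n).1 x j
        · refine measurable_to_bool ?_
          have : (fun M => G x M (Sum.inr (n, j))) ⁻¹' {true} =
              ⋃ c, (Θ n (c :: x)) ⁻¹' {e n j} := by
            ext M
            simp [G]
          rw [this]
          exact MeasurableSet.iUnion fun c => (hΘ n).measurable _ (measurableSet_singleton _)
      · rintro h M N x hh (⟨n, j⟩ | ⟨n, j⟩)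
        · exact (hΘ n).2 h M N x hh j
        · have h1 : ∀ c, Θ n (c :: x) M = Θ n (h c :: x.map h) N := fun c =>
            funext fun i => (hΘ n).2 h M N (c :: x) hh i
          simp only [G]
          congr 1
          apply propext
          constructor
          · rintro ⟨c, hc⟩
            exact ⟨h c, by rw [← h1]; exact hc⟩
          · rintro ⟨c, hc⟩
            refine ⟨h.symm c, ?_⟩
            rw [h1, Equiv.apply_symm_apply]; exact hc
    obtain ⟨Θ', hΘ', hd⟩ := hG.toNat
    refine ⟨Θ', hΘ', ?_⟩
    intro M hM N hN x y hxy hxyΘ n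
    have hd' := hd _ _ _ _ hxyΘ
    have h2 : ∀ j, (∃ c, Θ n (c :: x) M = e n j) ↔ ∃ c, Θ n (c :: y) N = e n j := by
      intro j
      have := hd' (.inr (n, j))
      simpa [G] using this
    refine ⟨hbf n M hM N hN x y hxy (funext fun j => hd' (.inl (n, j))), ?_, ?_⟩
    · intro a _
      obtain ⟨j, hj⟩ := he n (a :: x) M hM
      obtain ⟨b, hb⟩ := (h2 j).1 ⟨a, hj.symm⟩
      exact ⟨b, mem_univ _, hbf n M hM N hN (a :: x) (b :: y) (by simp [hxy])
        (hj.symm.trans hb.symm)⟩
    · intro b _
      obtain ⟨j, hj⟩ := he n (b :: y) N hN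
      obtain ⟨a, ha⟩ := (h2 j).2 ⟨b, hj.symm⟩
      exact ⟨a, mem_univ _, hbf n M hM N hN (a :: x) (b :: y) (by simp [hxy])
        (ha.trans hj)⟩

theorem pf_TYC {C : Type} [MeasurableSpace C] [StandardBorelSpace C] (hTHN : THN C)
    (hNFM : NFM C) : TYC C := by
  intro X hX _ hP r
  have hNF := hNFM X hP
  obtain ⟨Θ, hΘ, hbf⟩ := exists_inv hTHN hX hNF r
  let F : St C × List ℕ → ℕ × (ℕ → Bool) := fun q => (q.2.length, Θ q.2 q.1)
  let S : Set (St C × List ℕ) := {q | q.1 ∈ X}
  have hc : (F '' S).Countable := by
    have h1 := hTHN X hX hNF Θ hΘ.measurable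
      (fun h M _ N _ x hh => funext fun i => hΘ.2 h M N x hh i)
    refine ((countable_univ (α := ℕ)).prod h1).mono ?_
    rintro _ ⟨q, hq, rfl⟩
    exact ⟨mem_univ _, q.2, q.1, hq, rfl⟩
  obtain ⟨T, hTS, hT⟩ := Set.exists_subset_bijOn S F
  refine ⟨T, ?_, fun t ht => hTS ht, ?_⟩
  · refine Set.countable_of_injective_of_countable_image hT.injOn (hc.mono ?_)
    exact image_mono hTS
  · intro M hM x
    obtain ⟨t, htT, ht⟩ := hT.surjOn (mem_image_of_mem F (show (M, x) ∈ S from hM))
    have h1 : t.2.length = x.length := congrArg Prod.fst ht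
    have h2 : Θ t.2 t.1 = Θ x M := congrArg Prod.snd ht
    exact ⟨t, htT, h1, hbf M hM t.1 (hTS htT) x t.2 h1.symm h2.symm⟩

end Pool.Agent.TK
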