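import Mathlib

/-!
# Back-and-forth equivalence with well-founded clocks
-/

set_option autoImplicit false

open Set

namespace Pool.Agent.H75.TK

/-- well-founded countably branching clocks -/
inductive Clk : Type
  | zero : Clk
  | mk : (ℕ → Clk) → Clk

namespace Clk

/-- comparison of clocks -/
noncomputable def le (r : Clk) : Clk → Prop :=
  Clk.rec (motive := fun _ => Clk → Prop) (fun _ => True)
    (fun _ ih s => Clk.rec (motive := fun _ => Prop) False (fun g _ => ∀ n, ∃ m, ih n (g m)) s) r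

@[simp] lemma zero_le (s : Clk) : le .zero s := trivial

lemma mk_le_mk {f g : ℕ → Clk} : le (.mk f) (.mk g) ↔ ∀ n, ∃ m, le (f n) (g m) := Iff.rfl

lemma le_refl (r : Clk) : le r r := by
  induction r with
  | zero => trivial
  | mk f ih => exact fun n => ⟨n, ih n⟩

lemma le_trans {r s t : Clk} (h1 : le r s) (h2 : le s t) : le r t := by
  induction r generalizing s t with
  | zero => trivial
  | mk f ih =>
    cases s with
    | zero => exact h1.elim
    | mk g =>
      cases t with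
      | zero => exact h2.elim
      | mk h =>
        intro n
        obtain ⟨m, hm⟩ := h1 n
        obtain ⟨k, hk⟩ := h2 m
        exact ⟨k, ih n hm hk⟩

lemma child_le (f : ℕ → Clk) (n : ℕ) : le (f n) (.mk f) := by
  suffices H : ∀ r : Clk, ∀ f : ℕ → Clk, ∀ n, f n = r → le r (.mk f) from H _ f n rfl
  intro r
  induction r with
  | zero => intro f n _; trivial
  | mk g ih =>
    intro f n hn k
    exact ⟨n, hn ▸ ih k g k rfl⟩

/-- successor clock -/
def succ (r : Clk) : Clk := .mk fun _ => r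

lemma le_succ (r : Clk) : le r (succ r) := child_le (fun _ => r) 0

/-- the clock `r + n` -/
def addn (r : Clk) (n : ℕ) : Clk := succ^[n] r

/-- the clock `r + ω` -/
def addω (r : Clk) : Clk := .mk fun n => addn r n

lemma addn_succ (r : Clk) (n : ℕ) : addn r (n + 1) = succ (addn r n) := by
  unfold addn
  rw [Function.iterate_succ_apply']

lemma le_addn (r : Clk) (n : ℕ) : le r (addn r n) := by
  induction n with
  | zero => exact le_refl r
  | succ n ih => rw [addn_succ]; exact le_trans ih (le_succ _)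

lemma addn_le_addω (r : Clk) (n : ℕ) : le (addn r n) (addω r) := child_le _ n

lemma le_addω (r : Clk) : le r (addω r) := addn_le_addω r 0

lemma mk_le {f : ℕ → Clk} {s : Clk} (h : ∀ n, le (succ (f n)) s) : le (.mk f) s := by
  cases s with
  | zero => exact (h 0).elim
  | mk g =>
    intro n
    exact h n 0

lemma succ_mono {r s : Clk} (h : le r s) : le (succ r) (succ s) := fun _ => ⟨0, h⟩

end Clk

/-- positions: finite lists of pairs -/
abbrev Pos := List (ℕ × ℕ)

variable {C : Type*}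

/-- the two sides of the position have the same atomic diagram -/
def Atom (c c' : List ℕ → C) (p : Pos) : Prop :=
  (∀ l : Pos, (∀ q ∈ l, q ∈ p) → c (l.map Prod.fst) = c' (l.map Prod.snd)) ∧
  ∀ q ∈ p, ∀ q' ∈ p, (q.1 = q'.1 ↔ q.2 = q'.2)

/-- back-and-forth equivalence; the moves are in `D` and `D'` -/
noncomputable def BF (c c' : List ℕ → C) (D D' : Set ℕ) (r : Clk) : Pos → Prop :=
  Clk.rec (motive := fun _ => Pos → Prop) (fun p => Atom c c' p)
    (fun _ ih p => Atom c c' p ∧ ∀ n,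
      (∀ x ∈ D, ∃ y ∈ D', ih n ((x, y) :: p)) ∧
      (∀ y ∈ D', ∃ x ∈ D, ih n ((x, y) :: p))) r

variable {c c' c'' : List ℕ → C} {D D' D'' : Set ℕ} {r s : Clk} {p q : Pos}

lemma BF_zero : BF c c' D D' .zero p ↔ Atom c c' p := Iff.rfl

lemma BF_mk {f : ℕ → Clk} : BF c c' D D' (.mk f) p ↔ Atom c c' p ∧ ∀ n,
    (∀ x ∈ D, ∃ y ∈ D', BF c c' D D' (f n) ((x, y) :: p)) ∧
    (∀ y ∈ D', ∃ x ∈ D, BF c c' D D' (f n) ((x, y) :: p)) := Iff.rfl

lemma BF.forth {f : ℕ → Clk} (h : BF c c' D D' (.mk f) p) (n : ℕ) {x : ℕ} (hx : x ∈ D) :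
    ∃ y ∈ D', BF c c' D D' (f n) ((x, y) :: p) := (h.2 n).1 x hx

lemma BF.back {f : ℕ → Clk} (h : BF c c' D D' (.mk f) p) (n : ℕ) {y : ℕ} (hy : y ∈ D') :
    ∃ x ∈ D, BF c c' D D' (f n) ((x, y) :: p) := (h.2 n).2 y hy

lemma BF.atom (h : BF c c' D D' r p) : Atom c c' p := by
  cases r with
  | zero => exact h
  | mk f => exact h.1

lemma Atom.mono (h : Atom c c' q) (hpq : ∀ x ∈ p, x ∈ q) : Atom c c' p :=
  ⟨fun l hl => h.1 l fun x hx => hpq x (hl x hx), fun x hx y hy => h.2 x (hpq x hx) y (hpq y hy)⟩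

lemma BF.mono_clk (h : BF c c' D D' s p) (hrs : Clk.le r s) : BF c c' D D' r p := by
  induction r generalizing s p with
  | zero => exact h.atom
  | mk f ih =>
    cases s with
    | zero => exact hrs.elim
    | mk g =>
      refine ⟨h.1, fun n => ?_⟩
      obtain ⟨m, hm⟩ := hrs n
      refine ⟨fun x hx => ?_, fun y hy => ?_⟩
      · obtain ⟨y, hy, h1⟩ := (h.2 m).1 x hx
        exact ⟨y, hy, ih n h1 hm⟩
      · obtain ⟨x, hx, h1⟩ := (h.2 m).2 y hy
        exact ⟨x, hx, ih n h1 hm⟩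

/-- weakening and permutation of positions -/
lemma BF.mono_pos (h : BF c c' D D' r q) (hpq : ∀ x ∈ p, x ∈ q) : BF c c' D D' r p := by
  induction r generalizing p q with
  | zero => exact Atom.mono h hpq
  | mk f ih =>
    refine ⟨h.1.mono hpq, fun n => ⟨fun x hx => ?_, fun y hy => ?_⟩⟩
    · obtain ⟨y, hy, h1⟩ := (h.2 n).1 x hx
      refine ⟨y, hy, ih n h1 ?_⟩
      intro z hz
      rcases List.mem_cons.1 hz with rfl | hz
      · exact List.mem_cons_self
      · exact List.mem_cons_of_mem _ (hpq z hz)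
    · obtain ⟨x, hx, h1⟩ := (h.2 n).2 y hy
      refine ⟨x, hx, ih n h1 ?_⟩
      intro z hz
      rcases List.mem_cons.1 hz with rfl | hz
      · exact List.mem_cons_self
      · exact List.mem_cons_of_mem _ (hpq z hz)

lemma atom_refl (a : List ℕ) : Atom c c (a.map fun x => (x, x)) := by
  refine ⟨fun l hl => ?_, ?_⟩
  · have : l.map Prod.fst = l.map Prod.snd := by
      apply List.map_congr_left
      intro q hq
      obtain ⟨x, -, rfl⟩ := List.mem_map.1 (hl q hq)
      rfl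
    rw [this]
  · intro q hq q' hq'
    obtain ⟨x, -, rfl⟩ := List.mem_map.1 hq
    obtain ⟨y, -, rfl⟩ := List.mem_map.1 hq'
    exact Iff.rfl

lemma BF.refl (c : List ℕ → C) (D : Set ℕ) (r : Clk) (a : List ℕ) :
    BF c c D D r (a.map fun x => (x, x)) := by
  induction r generalizing a with
  | zero => exact atom_refl a
  | mk f ih =>
    rw [BF_mk]
    refine ⟨atom_refl a, fun n => ⟨fun x hx => ⟨x, hx, ?_⟩, fun x hx => ⟨x, hx, ?_⟩⟩⟩
    · simpa using ih n (x :: a)
    · simpa using ih n (x :: a)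

lemma Atom.symm (h : Atom c c' p) : Atom c' c (p.map Prod.swap) := by
  refine ⟨fun l hl => ?_, ?_⟩
  · have h1 : ∀ q ∈ l.map Prod.swap, q ∈ p := by
      intro q hq
      obtain ⟨q', hq', rfl⟩ := List.mem_map.1 hq
      obtain ⟨q'', hq'', h2⟩ := List.mem_map.1 (hl q' hq')
      rw [← h2]
      simpa using hq''
    have h2 := h.1 _ h1
    rw [List.map_map, List.map_map] at h2
    exact h2.symm
  · intro q hq q' hq'
    obtain ⟨x, hx, rfl⟩ := List.mem_map.1 hq
    obtain ⟨y, hy, rfl⟩ := List.mem_map.1 hq'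
    exact (h.2 x hx y hy).symm

lemma BF.symm (h : BF c c' D D' r p) : BF c' c D' D r (p.map Prod.swap) := by
  induction r generalizing p with
  | zero => exact Atom.symm h
  | mk f ih =>
    rw [BF_mk]
    refine ⟨Atom.symm h.1, fun n => ⟨fun y hy => ?_, fun x hx => ?_⟩⟩
    · obtain ⟨x, hx, h1⟩ := h.back n hy
      exact ⟨x, hx, by simpa using ih n h1⟩
    · obtain ⟨y, hy, h1⟩ := h.forth n hx
      exact ⟨y, hy, by simpa using ih n h1⟩

/-- triples for the composition of positions -/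
def pr12 (t : List (ℕ × ℕ × ℕ)) : Pos := t.map fun x => (x.1, x.2.1)
def pr23 (t : List (ℕ × ℕ × ℕ)) : Pos := t.map fun x => (x.2.1, x.2.2)
def pr13 (t : List (ℕ × ℕ × ℕ)) : Pos := t.map fun x => (x.1, x.2.2)

lemma mem_choose {α β : Type*} (g : α → β) (t : List α) (l : List β)
    (h : ∀ q ∈ l, q ∈ t.map g) : ∃ u : List α, (∀ x ∈ u, x ∈ t) ∧ u.map g = l := by
  induction l with
  | nil => exact ⟨[], by simp, rfl⟩
  | cons b l ih =>
    obtain ⟨u, hu, rfl⟩ := ih fun q hq => h q (List.mem_cons_of_mem _ hq)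
    obtain ⟨x, hx, rfl⟩ := List.mem_map.1 (h b List.mem_cons_self)
    refine ⟨x :: u, ?_, rfl⟩
    intro y hy
    rcases List.mem_cons.1 hy with rfl | hy
    · exact hx
    · exact hu y hy

lemma Atom.trans {t : List (ℕ × ℕ × ℕ)} (h1 : Atom c c' (pr12 t)) (h2 : Atom c' c'' (pr23 t)) :
    Atom c c'' (pr13 t) := by
  refine ⟨fun l hl => ?_, ?_⟩
  · obtain ⟨u, hu, rfl⟩ := mem_choose _ t l hl
    have e1 := h1.1 (u.map fun x => (x.1, x.2.1)) (by
      intro q hq
      obtain ⟨x, hx, rfl⟩ := List.mem_map.1 hq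
      exact List.mem_map_of_mem (hu x hx))
    have e2 := h2.1 (u.map fun x => (x.2.1, x.2.2)) (by
      intro q hq
      obtain ⟨x, hx, rfl⟩ := List.mem_map.1 hq
      exact List.mem_map_of_mem (hu x hx))
    simp only [List.map_map] at e1 e2 ⊢
    exact e1.trans e2
  · intro q hq q' hq'
    obtain ⟨x, hx, rfl⟩ := List.mem_map.1 hq
    obtain ⟨y, hy, rfl⟩ := List.mem_map.1 hq'
    exact (h1.2 _ (List.mem_map_of_mem hx) _ (List.mem_map_of_mem hy)).trans
      (h2.2 _ (List.mem_map_of_mem hx) _ (List.mem_map_of_mem hy))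

lemma BF.trans {t : List (ℕ × ℕ × ℕ)} (h1 : BF c c' D D' r (pr12 t))
    (h2 : BF c' c'' D' D'' r (pr23 t)) : BF c c'' D D'' r (pr13 t) := by
  induction r generalizing t with
  | zero => exact Atom.trans h1 h2
  | mk f ih =>
    refine ⟨Atom.trans h1.1 h2.1, fun n => ⟨fun x hx => ?_, fun z hz => ?_⟩⟩
    · obtain ⟨y, hy, e1⟩ := (h1.2 n).1 x hx
      obtain ⟨z, hz, e2⟩ := (h2.2 n).1 y hy
      exact ⟨z, hz, ih n (t := (x, y, z) :: t) e1 e2⟩
    · obtain ⟨y, hy, e2⟩ := (h2.2 n).2 z hz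
      obtain ⟨x, hx, e1⟩ := (h1.2 n).2 y hy
      exact ⟨x, hx, ih n (t := (x, y, z) :: t) e1 e2⟩

/-- equivalence for all clocks -/
def EQ (c c' : List ℕ → C) (D D' : Set ℕ) (p : Pos) : Prop := ∀ r, BF c c' D D' r p

/-- equivalence for all clocks is a back-and-forth system -/
lemma EQ.forth (h : EQ c c' D D' p) {x : ℕ} (hx : x ∈ D) :
    ∃ y ∈ D', EQ c c' D D' ((x, y) :: p) := by
  by_contra hcon
  have h1 : ∀ y : ℕ, ∃ r, y ∈ D' → ¬ BF c c' D D' r ((x, y) :: p) := by
    intro y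
    by_cases hy : y ∈ D'
    · by_contra h2
      push Not at h2
      exact hcon ⟨y, hy, fun r => (h2 r).2⟩
    · exact ⟨.zero, fun h => (hy h).elim⟩
  choose f hf using h1
  obtain ⟨y, hy, h2⟩ := (h (.mk fun _ => .mk f)).forth 0 hx
  exact hf y hy (h2.mono_clk (Clk.child_le f y))

lemma EQ.symm (h : EQ c c' D D' p) : EQ c' c D' D (p.map Prod.swap) := fun r => (h r).symm

lemma EQ.back (h : EQ c c' D D' p) {y : ℕ} (hy : y ∈ D') :
    ∃ x ∈ D, EQ c c' D D' ((x, y) :: p) := by
  obtain ⟨x, hx, h1⟩ := h.symm.forth hy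
  refine ⟨x, hx, ?_⟩
  have h2 := h1.symm
  simpa [List.map_map, Function.comp_def] using h2

end Pool.Agent.H75.TK
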