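import Pool.Agent.H16.TK.Stmt2

/-! EKO: a coherent sequence of finite bijections (Koenig's lemma). -/

set_option autoImplicit false

open Set

namespace Pool.Agent.TK

private lemma finite_lists {E : Set ℕ} (hE : E.Finite) (k : ℕ) :
    {u : List ℕ | u.length = k ∧ ∀ z ∈ u, z ∈ E}.Finite := by
  induction k with
  | zero =>
    refine (finite_singleton ([] : List ℕ)).subset ?_
    rintro u ⟨h, -⟩
    exact List.length_eq_zero_iff.1 h
  | succ k ih =>
    refine (hE.image2 (fun x u => x :: u) ih).subset ?_
    rintro u ⟨h, h'⟩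
    match u, h, h' with
    | x :: u, h, h' =>
      exact ⟨x, h' x List.mem_cons_self, u,
        ⟨by simpa using h, fun z hz => h' z (List.mem_cons_of_mem _ hz)⟩, rfl⟩

private lemma cc_take (q : ℕ → List ℕ) {i j : ℕ} (hij : i ≤ j) :
    (cc q j).take (cc q i).length = cc q i := by
  induction hij with
  | refl => simp
  | step h ih =>
    rename_i m
    have hle : (cc q i).length ≤ (cc q m).length := by
      rw [← ih, List.length_take]; exact min_le_right _ _
    simp only [cc]
    rw [List.take_append_of_le_length hle, ih]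

private lemma cc_length_mono (q : ℕ → List ℕ) {i j : ℕ} (hij : i ≤ j) :
    (cc q i).length ≤ (cc q j).length := by
  rw [← cc_take q hij, List.length_take]; exact min_le_right _ _

private lemma zip_take_sub {x u : List ℕ} {k : ℕ} : ∀ z ∈ (x.take k).zip (u.take k), z ∈ x.zip u := by
  intro z hz
  rw [List.zip_eq_zipWith, ← List.take_zipWith] at hz
  exact List.mem_of_mem_take hz

theorem pf_EKO {C : Type} {c0 : C} (hENX : ENX C c0) (hNUN : NUN C c0) (hNFA : NFA C c0) :
    EKO C c0 := by
  classical
  intro s ρ hs hρ M N w w' a a' D D' hM hN hw' hwD hwD' hTP hFB P A S q hcs hA0 hq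
  obtain ⟨hlen, hbf0⟩ := hFB
  obtain ⟨hfacts, -, -⟩ := hNFA M hM w P A S hcs
  -- the separators in terms of lists
  have hAn : ∀ n, ms (a ++ cc q n) = A n := by
    intro n
    induction n with
    | zero => simp [cc, hA0]
    | succ n ih =>
      rw [hcs.succ n, ← ih, ← hq n]
      simp only [cc]
      rw [← List.append_assoc, ms_append _ (q n)]
  have hsub : ∀ n, w (A n) ⊆ D := by
    intro n
    induction n with
    | zero => rw [hA0, hwD]
    | succ n ih => exact (hfacts n).2.2.2.2.2.2.1.trans ih
  have hqD : ∀ n, ∀ z ∈ q n, z ∈ D := by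
    intro n z hz
    have h1 : z ∈ S n := by rw [← hq n]; exact hz
    exact hsub n ((hfacts n).2.2.2.2.1 h1)
  have hccD : ∀ n, ∀ z ∈ cc q n, z ∈ D := by
    intro n
    induction n with
    | zero => simp [cc]
    | succ n ih =>
      intro z hz
      simp only [cc, List.mem_append] at hz
      rcases hz with hz | hz
      · exact ih z hz
      · exact hqD n z hz
  have hPI0 := bf_PI hbf0
  set P' : Set ℕ := {y | ∃ z ∈ a.zip a', z.1 ∈ P ∧ z.2 = y} with hP'
  have hP'a : P' ⊆ ms a' := by
    rintro y ⟨z, hz, -, rfl⟩
    exact (List.of_mem_zip (show (z.1, z.2) ∈ a.zip a' from hz)).2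
  have hPa : P ⊆ ms a := by rw [← hA0]; exact hcs.P0
  have hPP' : ∀ z ∈ a.zip a', (z.1 ∈ P ↔ z.2 ∈ P') := by
    intro z hz
    constructor
    · intro h; exact ⟨z, hz, h, rfl⟩
    · rintro ⟨z', hz', h1, h2⟩
      rw [← (hPI0.1 z' hz' z hz).2 h2]; exact h1
  -- the levels of the tree
  let L : ℕ → Set (List ℕ) := fun n => {u | u.length = (cc q n).length ∧ (∀ z ∈ u, z ∈ D') ∧
    bf M N D D' ρ ((cc q n).zip u ++ a.zip a')}
  have hLne : ∀ n, (L n).Nonempty := by
    intro n
    obtain ⟨u, h1, h2, h3⟩ := lim_ext hbf0 (cc q n) (hccD n)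
    exact ⟨u, h1, h2, h3⟩
  have hLtake : ∀ i j, i ≤ j → ∀ u ∈ L j, u.take (cc q i).length ∈ L i := by
    rintro i j hij u ⟨h1, h2, h3⟩
    have hle := cc_length_mono q hij
    refine ⟨by rw [List.length_take, h1]; exact min_eq_left hle,
      fun z hz => h2 z (List.mem_of_mem_take hz), ?_⟩
    refine bf_mono h3 ?_
    intro z hz
    rcases List.mem_append.1 hz with hz | hz
    · refine List.mem_append_left _ ?_
      rw [← cc_take q hij] at hz
      rw [List.length_take, min_eq_left hle] at hz
      exact zip_take_sub z hz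
    · exact List.mem_append_right _ hz
  -- the next separator
  have hnext : ∀ n, ∀ u ∈ L (n + 1),
      IsNext N w' P' (ms (a' ++ u.take (cc q n).length)) (ms (u.drop (cc q n).length)) := by
    intro n u hu
    obtain ⟨h1, h2, h3⟩ := hu
    have hv := hLtake n (n + 1) (Nat.le_succ n) u ⟨h1, h2, h3⟩
    obtain ⟨hv1, hv2, -⟩ := hv
    set v := u.take (cc q n).length with hvdef
    set x := u.drop (cc q n).length with hxdef
    have huvx : u = v ++ x := (List.take_append_drop _ _).symm
    have hcclen : (cc q (n + 1)).length = (cc q n).length + (q n).length := by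
      simp [cc]
    have hxlen : (q n).length = x.length := by
      rw [hxdef, List.length_drop, h1, hcclen]; omega
    have hzip : (cc q (n + 1)).zip u = (cc q n).zip v ++ (q n).zip x := by
      rw [huvx]; exact List.zip_append hv1.symm
    have hcn := hcs.next n
    rw [← hAn n, ← hq n] at hcn
    refine hENX s hs M N w w' a a' D D' hM hN hcs.dir hw' hwD hwD' hlen hTP P P' hPa hP'a hPP'
      (cc q n) v (q n) x hv1.symm hxlen (hccD n) hv2 (hqD n)
      (fun z hz => h2 z (List.mem_of_mem_drop hz)) ?_ hcn
    refine hρ _ _ _ _ _ (bf_mono h3 ?_)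
    intro z hz
    rw [hzip]
    simp only [List.mem_append] at hz ⊢
    tauto
  -- the underlying set does not depend on the choice
  have huniq : ∀ n, ∀ u ∈ L n, ∀ u' ∈ L n, ms u = ms u' := by
    intro n
    induction n with
    | zero =>
      rintro u ⟨h1, -⟩ u' ⟨h1', -⟩
      simp only [cc, List.length_nil] at h1 h1'
      rw [List.length_eq_zero_iff.1 h1, List.length_eq_zero_iff.1 h1']
    | succ n ih =>
      intro u hu u' hu'
      have hv := hLtake n (n + 1) (Nat.le_succ n) u hu
      have hv' := hLtake n (n + 1) (Nat.le_succ n) u' hu'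
      have h1 := ih _ hv _ hv'
      have h2 := hnext n u hu
      have h3 := hnext n u' hu'
      rw [ms_append, h1, ← ms_append] at h2
      have h4 := hNUN N hN w' hw' P' _ _ _ (ms_finite _)
        (hP'a.trans (by rw [ms_append]; exact subset_union_left)) h2 h3
      rw [← List.take_append_drop (cc q n).length u, ms_append, h1, h4, ← ms_append,
        List.take_append_drop]
  have hLfin : ∀ n, (L n).Finite := by
    intro n
    obtain ⟨u0, hu0⟩ := hLne n
    refine (finite_lists (ms_finite u0) (cc q n).length).subset ?_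
    intro u hu
    refine ⟨hu.1, fun z hz => ?_⟩
    rw [← huniq n u hu u0 hu0]
    exact hz
  -- Koenig's lemma
  have : ∀ n, Finite (L n) := fun n => (hLfin n).to_subtype
  have : ∀ n, Nonempty (L n) := fun n => (hLne n).to_subtype
  obtain ⟨f, hf⟩ := exists_seq_forall_proj_of_forall_finite (α := fun n => L n)
    (fun {i j} hij u => ⟨(u : List ℕ).take (cc q i).length, hLtake i j hij u u.2⟩)
    (by
      intro i u
      apply Subtype.ext
      show (u : List ℕ).take (cc q i).length = u
      rw [← u.2.1, List.take_length])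
    (by
      intro i j k hij hjk u
      apply Subtype.ext
      show ((u : List ℕ).take (cc q j).length).take (cc q i).length =
        (u : List ℕ).take (cc q i).length
      rw [List.take_take, min_eq_left (cc_length_mono q hij)])
    (fun i u => Set.toFinite _)
  have hft : ∀ n, (f (n + 1) : List ℕ).take (cc q n).length = f n := fun n =>
    congrArg Subtype.val (hf (Nat.le_succ n))
  let t : ℕ → List ℕ := fun n => (f (n + 1) : List ℕ).drop (cc q n).length
  have hcct : ∀ n, cc t n = f n := by
    intro n
    induction n with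
    | zero =>
      have h := (f 0).2.1
      simp only [cc, List.length_nil] at h
      simp only [cc]
      exact (List.length_eq_zero_iff.1 h).symm
    | succ n ih =>
      simp only [cc]
      rw [ih, ← hft n]
      exact List.take_append_drop _ _
  refine ⟨t, ?_, ?_, ?_⟩
  · intro n
    show ((f (n + 1) : List ℕ).drop (cc q n).length).length = _
    rw [List.length_drop, (f (n + 1)).2.1]
    simp [cc]
  · intro n z hz
    exact (f (n + 1)).2.2.1 z (List.mem_of_mem_drop hz)
  · intro n
    rw [hcct]
    exact (f n).2.2.2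

end Pool.Agent.TK
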