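import Pool.Agent.H16.TK.Stmt2

/-! EXB: a big flap can be replaced by a flap which is big for a given rank. -/

set_option autoImplicit false

open Set

namespace Pool.Agent.TK

theorem pf_EXB {C : Type} [MeasurableSpace C] {c0 : C} (hEXN : EXN C c0) (hCNT : CNT C c0)
    (hRPF : RPF C c0) (hMEM : MEM C c0) : EXB C c0 := by
  intro X b hX M hM a D hD hns r
  obtain ⟨T, hT, hTv, hT2⟩ := hCNT X hX.val hX.tc r
  obtain ⟨R, hR, hRcp, hRpi, hRbf, hRT⟩ := hEXN X b hX M hM a D hD hns T hT hTv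
  refine ⟨R, hR, hRcp, hRpi, hRbf, ?_⟩
  intro hsm
  have hRD : RD c0 M (fun _ => a) (fun _ => D) (fun _ => R) {0} := by
    refine ⟨hX.val M hM, fun _ _ => hR, fun _ _ => hD, fun _ _ => hRcp, fun _ _ => hRpi, ?_,
      fun _ _ _ _ => hD.disj.symm⟩
    intro i hi j hj hij
    exact absurd (hi.trans hj.symm) hij
  have hmem := hMEM X b hX.val hX.cl M hM _ _ _ _ hRD (fun _ _ => hRbf)
  obtain ⟨hv, -, -, -, -, hcp, hfi⟩ := hRPF M _ _ _ _ hRD
  generalize repl c0 M (fun _ => a) (fun _ => D) (fun _ => R) {0} = M' at *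
  have h0 : (0 : ℕ) ∈ ({0} : Set ℕ) := rfl
  have hcp := hcp 0 h0
  have hfi := hfi 0 h0
  have hsm' := hsm.fi hfi.symm
  obtain ⟨v, hvD⟩ := hcp.nonempty
  have hDv := hcp.eq_cp hv hvD
  have hva : v ∉ a := fun h => Set.disjoint_left.1 hcp.disj hvD h
  rw [hDv] at hsm'
  obtain ⟨t, htT, ht⟩ := hT2 _ hmem a v hva hsm'
  rw [← hDv] at ht
  exact hRT t htT (hfi.symm.trans ht)

end Pool.Agent.TK
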