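import Pool.Agent.H16.TK.Stmt2

/-! LRF: the replaced structures have the same sides of the canonical separators. -/

set_option autoImplicit false

open Set

namespace Pool.Agent.TK

theorem pf_LRF {C : Type} [MeasurableSpace C] {c0 : C} (hCOMP : COMP C c0) (hRPF : RPF C c0)
    (hCTR : CTR C) (hNFA : NFA C c0) (hLDR : LDR C c0) : LRF C c0 := by
  intro b X M w A S k a D R r H y
  have hRDu := hLDR b X M w A S k a D R r H
  have hRD : RD c0 M a D R y :=
    ⟨hRDu.val, fun i _ => hRDu.valR i (mem_univ _), fun i _ => hRDu.cpM i (mem_univ _),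
      fun i _ => hRDu.cpR i (mem_univ _), fun i _ => hRDu.pi i (mem_univ _),
      fun i _ j _ => hRDu.disj i (mem_univ _) j (mem_univ _),
      fun i _ j _ => hRDu.disjA i (mem_univ _) j (mem_univ _)⟩
  have hM := hRD.val
  obtain ⟨hNv, hN1, hN2, -, -, hcpN, hFI⟩ := hRPF M a D R y hRD
  generalize repl c0 M a D R y = N at *
  obtain ⟨hfacts, -, -⟩ := hNFA M hM w _ A S H.cs
  have hAfin : ∀ n, (A n).Finite := fun n => (hfacts n).1
  have hAmono : ∀ i j, i ≤ j → A i ⊆ A j := by
    intro i j hij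
    induction hij with
    | refl => exact fun _ h => h
    | step h ih => rw [Nat.succ_eq_add_one, H.cs.succ]; exact ih.trans subset_union_left
  have hwmono : ∀ i j, i ≤ j → w (A j) ⊆ w (A i) := fun i j hij =>
    H.cs.dir.2 _ _ (hAfin j) (hAmono i j hij)
  have hcpA : ∀ n, IsCp M (A n) (w (A n)) := fun n => H.cs.dir.1 _ (hAfin n)
  have hrk : RLe C om b := ((RLe.lim om).trans (RLe.lim (Rk.lim om))).trans H.hyp.base
  have hrk1 : RLe C (Rk.suc Rk.zero) b := (RLe.lim' 1 Rk.zero).trans hrk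
  have hdw : ∀ i, Disjoint (D i) (w (A (k i + 1))) := by
    intro i
    rw [Set.disjoint_left]
    intro x hx hx'
    exact (H.lev i).2.2 ((H.lev i).1.eq_of_inter hM (hcpA _) hx hx')
  -- the separators avoid the pieces
  have hAD : ∀ m i, ∀ x ∈ A m, x ∉ D i := by
    intro m i
    rcases Nat.le_total m (k i + 1) with hm | hm
    · intro x hx hx'
      exact Set.disjoint_left.1 (H.lev i).1.disj hx' (hAmono _ _ hm hx)
    · induction hm with
      | refl =>
        intro x hx hx'
        exact Set.disjoint_left.1 (H.lev i).1.disj hx' hx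
      | step hm ih =>
        rename_i m
        intro x hx hx'
        rw [Nat.succ_eq_add_one, H.cs.succ] at hx
        rcases hx with hx | hx
        · exact ih x hx hx'
        · exact Set.disjoint_left.1 (hdw i) hx' (hwmono _ _ hm ((hfacts m).2.2.2.2.1 hx))
  have haD : ∀ i, ∀ x ∈ a i, ∀ j, x ∉ D j := by
    intro i x hx j
    have : x ∈ A (k i + 1) := by rw [← H.msa i]; exact hx
    exact hAD _ j x this
  have hsat : ∀ n i, D i ⊆ w (A n) ∨ Disjoint (D i) (w (A n)) := by
    intro n i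
    rcases Nat.lt_or_ge (k i) n with h | h
    · right
      exact (hdw i).mono_right (hwmono _ _ h)
    · left
      exact (H.lev i).2.1.trans (hwmono _ _ h)
  have hpiece : ∀ i ∈ y, bf M N (D i) (D i) b (dg (a i)) := by
    intro i hi
    have h1 := H.bfR i
    have h2 := ((hFI i hi).symm.fb b).2
    rw [dg_eq_zip] at h1 ⊢
    exact bf_trans rfl rfl h1 h2
  have hcomp : ∀ U : Set ℕ, (∀ i ∈ y, D i ⊆ U ∨ Disjoint (D i) U) →
      ∀ k' : List ℕ, (∀ z ∈ k', ∀ i ∈ y, z ∉ D i) → bf M N U U b (dg k') :=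
    hCOMP M N y a D b hM hNv hRD.disj hRD.disjA (fun i hi => (hRD.cpM i hi).nb hM)
      (fun i hi => (hcpN i hi).nb hNv) (fun u v hu hv => (hN1 u v hu hv).symm)
      (fun l hl => (hN2 l hl).symm) hpiece
  -- neighbours of the pieces
  have hnbD : ∀ i ∈ y, ∀ x, x ∈ Nb M (D i) ↔ x ∈ Nb N (D i) := by
    intro i hi x
    have hb1 := hrk1 _ _ _ _ _ (hpiece i hi)
    constructor
    · intro hx
      have hxa : x ∈ a i := (hRD.cpM i hi).nb hM hx
      obtain ⟨hxD, s, hs, hE⟩ := hx
      obtain ⟨s', hs', h1⟩ := (hb1 0).2.1 s hs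
      refine ⟨hxD, s', hs', ?_⟩
      have h2 := (bf_PI h1).2.1 (x, x) (List.mem_cons_of_mem _ (mem_dg.2 ⟨rfl, hxa⟩)) (s, s')
        List.mem_cons_self
      exact h2.symm.trans hE
    · intro hx
      have hxa : x ∈ a i := (hcpN i hi).nb hNv hx
      obtain ⟨hxD, s', hs', hE⟩ := hx
      obtain ⟨s, hs, h1⟩ := (hb1 0).2.2 s' hs'
      refine ⟨hxD, s, hs, ?_⟩
      have h2 := (bf_PI h1).2.1 (x, x) (List.mem_cons_of_mem _ (mem_dg.2 ⟨rfl, hxa⟩)) (s, s')
        List.mem_cons_self
      exact h2.trans hE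
  -- (2)
  have hNb : ∀ n, Nb N (w (A n)) = Nb M (w (A n)) := by
    intro n
    ext z
    constructor
    · rintro ⟨hz, s, hs, hE⟩
      by_cases hsD : ∃ i ∈ y, s ∈ D i
      · obtain ⟨i, hi, hsi⟩ := hsD
        have hDi : D i ⊆ w (A n) := by
          rcases hsat n i with h | h
          · exact h
          · exact absurd hs (Set.disjoint_left.1 h hsi)
        obtain ⟨-, s', hs', hE'⟩ := (hnbD i hi z).2 ⟨fun h => hz (hDi h), s, hsi, hE⟩
        exact ⟨hz, s', hDi hs', hE'⟩
      · push Not at hsD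
        by_cases hzD : ∃ i ∈ y, z ∈ D i
        · exfalso
          obtain ⟨i, hi, hzi⟩ := hzD
          obtain ⟨-, z', hz', hE'⟩ := (hnbD i hi s).2 ⟨hsD i hi, z, hzi, by rw [hNv.1]; exact hE⟩
          have hdis : Disjoint (D i) (w (A n)) := by
            rcases hsat n i with h | h
            · exact absurd (h hzi) hz
            · exact h
          have h1 : z' ∈ A n := (hfacts n).2.2.2.2.2.2.2.2.2
            ⟨Set.disjoint_left.1 hdis hz', s, hs, by rw [hM.1]; exact hE'⟩
          exact hAD n i z' h1 hz'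
        · push Not at hzD
          exact ⟨hz, s, hs, by rw [← hN1 z s hzD hsD]; exact hE⟩
    · intro hzNb
      have hzA : z ∈ A n := (hfacts n).2.2.2.2.2.2.2.2.2 hzNb
      obtain ⟨hz, s, hs, hE⟩ := hzNb
      by_cases hsD : ∃ i ∈ y, s ∈ D i
      · obtain ⟨i, hi, hsi⟩ := hsD
        have hDi : D i ⊆ w (A n) := by
          rcases hsat n i with h | h
          · exact h
          · exact absurd hs (Set.disjoint_left.1 h hsi)
        obtain ⟨-, s', hs', hE'⟩ := (hnbD i hi z).1 ⟨fun h => hz (hDi h), s, hsi, hE⟩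
        exact ⟨hz, s', hDi hs', hE'⟩
      · push Not at hsD
        exact ⟨hz, s, hs, by rw [hN1 z s (fun i _ => hAD n i z hzA) hsD]; exact hE⟩
  refine ⟨?_, hNb, fun k' hk' => hcomp univ (fun i _ => Or.inl (subset_univ _)) k' hk'⟩
  -- (1)
  intro n
  rw [isCp_iff hNv]
  refine ⟨⟨(hcpA n).nonempty, ?_⟩, (hcpA n).disj, by rw [hNb n]; exact (hcpA n).nb hM⟩
  have hout : ∀ u ∈ w (A n), ∀ v ∈ w (A n), (∀ i ∈ y, u ∉ D i) → (∀ i ∈ y, v ∉ D i) →
      Conn N (w (A n))ᶜ u v := by
    intro u hu v hv huD hvD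
    have h1 := hrk _ _ _ _ _ (hcomp (w (A n)) (fun i _ => hsat n i) [u, v] (by
      intro z hz
      simp only [List.mem_cons, List.not_mem_nil, or_false] at hz
      rcases hz with rfl | rfl
      exacts [huD, hvD]))
    have h2 := ((hcpA n).cd hM).2 u hu v hv
    have h3 := hCTR M N _ _ _ [] [] u u v v h1 rfl (by simp) (mem_dg.2 ⟨rfl, by simp⟩)
      (mem_dg.2 ⟨rfl, by simp⟩) hu hv (by
        rw [show ms ([] : List ℕ) = ∅ by ext x; simp, union_empty]; exact h2)
    rwa [show ms ([] : List ℕ) = ∅ by ext x; simp, union_empty] at h3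
  have hgo : ∀ u ∈ w (A n), ∃ x ∈ w (A n), (∀ i ∈ y, x ∉ D i) ∧ Conn N (w (A n))ᶜ u x := by
    intro u hu
    by_cases huD : ∃ i ∈ y, u ∈ D i
    · obtain ⟨i, hi, hui⟩ := huD
      have hDi : D i ⊆ w (A n) := by
        rcases hsat n i with h | h
        · exact h
        · exact absurd hu (Set.disjoint_left.1 h hui)
      have hnk : n ≤ k i := by
        by_contra hc
        push Not at hc
        exact Set.disjoint_left.1 (hdw i) hui (hwmono _ _ hc hu)
      obtain ⟨q, hq⟩ := (hfacts (k i)).2.2.2.1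
      have hqw : q ∈ w (A n) := hwmono _ _ hnk ((hfacts (k i)).2.2.2.2.1 hq)
      have hqD : q ∉ D i := by
        refine hAD (k i + 1) i q ?_
        rw [H.cs.succ]; exact Or.inr hq
      obtain ⟨x, hx, hxw, -, -⟩ := (((hcpA n).cd hM).2 u hu q hqw).exit hM hui hqD
      have hxw : x ∈ w (A n) := by simpa using hxw
      have hxa : x ∈ a i := (hRD.cpM i hi).nb hM hx
      obtain ⟨-, s, hs, hE⟩ := (hnbD i hi x).1 hx
      refine ⟨x, hxw, fun j _ => haD i x hxa j, ?_⟩
      have h1 := ((hcpN i hi).cd hNv).2 u hui s hs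
      exact (h1.mono (compl_subset_compl.2 hDi)).step (by rw [hNv.1]; exact hE) (by simpa using hxw)
    · push Not at huD
      exact ⟨u, hu, huD, Conn.refl (by simpa using hu)⟩
  intro u hu v hv
  obtain ⟨x, hx, hxD, h1⟩ := hgo u hu
  obtain ⟨z, hz, hzD, h2⟩ := hgo v hv
  exact (h1.trans (hout x hx z hz hxD hzD)).trans (h2.symm hNv)

end Pool.Agent.TK
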