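import Pool.Agent.H16.TK.Stmt2

/-! RPF: facts on the replaced structure. -/

set_option autoImplicit false

open Set

namespace Pool.Agent.TK

section
variable {C : Type} {c0 : C} {M : St C} {a : ℕ → List ℕ} {D : ℕ → Set ℕ} {R : ℕ → St C}
  {y : Set ℕ}

private lemma rp_disj (H : RD c0 M a D R y) {i j x : ℕ} (hi : i ∈ y) (hj : j ∈ y) (hx : x ∈ D i)
    (hx' : x ∈ D j) : i = j := by
  by_contra hij
  exact Set.disjoint_left.1 (H.disj i hi j hj hij) hx hx'

private lemma rp_out (H : RD c0 M a D R y) {i j x : ℕ} (hi : i ∈ y) (hj : j ∈ y) (hx : x ∈ D i)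
    (hij : i ≠ j) : x ∉ D j ∪ ms (a j) := by
  rintro (h | h)
  · exact hij (rp_disj H hi hj hx h)
  · exact Set.disjoint_left.1 (H.disjA j hj i hi) h hx

private lemma rp_edge_none {u v : ℕ} (hu : ∀ i ∈ y, u ∉ D i) (hv : ∀ i ∈ y, v ∉ D i) :
    (repl c0 M a D R y).1 u v = M.1 u v := by
  have h : ¬ ∃ i, i ∈ y ∧ (u ∈ D i ∨ v ∈ D i) := by
    rintro ⟨i, hi, h | h⟩
    exacts [hu i hi h, hv i hi h]
  simp only [repl]
  rw [dif_neg h]

open Classical in
private lemma rp_edge (H : RD c0 M a D R y) {i u v : ℕ} (hi : i ∈ y) (h : u ∈ D i ∨ v ∈ D i) :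
    (repl c0 M a D R y).1 u v = if u ∈ D i ∪ ms (a i) ∧ v ∈ D i ∪ ms (a i) then (R i).1 u v
      else false := by
  have hex : ∃ i, i ∈ y ∧ (u ∈ D i ∨ v ∈ D i) := ⟨i, hi, h⟩
  simp only [repl]
  rw [dif_pos hex]
  obtain ⟨hj, hj'⟩ := hex.choose_spec
  generalize hex.choose = j at hj hj' ⊢
  by_cases hij : i = j
  · subst hij; rfl
  · have h1 : ¬ (u ∈ D j ∪ ms (a j) ∧ v ∈ D j ∪ ms (a j)) := by
      rintro ⟨h1, h2⟩
      rcases h with h | h
      · exact rp_out H hi hj h hij h1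
      · exact rp_out H hi hj h hij h2
    have h2 : ¬ (u ∈ D i ∪ ms (a i) ∧ v ∈ D i ∪ ms (a i)) := by
      rintro ⟨h1, h2⟩
      rcases hj' with h | h
      · exact rp_out H hj hi h (Ne.symm hij) h1
      · exact rp_out H hj hi h (Ne.symm hij) h2
    rw [if_neg h1, if_neg h2]

private lemma rp_list_none {l : List ℕ} (hl : ∀ u ∈ l, ∀ i ∈ y, u ∉ D i) :
    (repl c0 M a D R y).2 l = M.2 l := by
  have h : ¬ ∃ i, i ∈ y ∧ ∃ u ∈ l, u ∈ D i := by
    rintro ⟨i, hi, u, hu, h⟩
    exact hl u hu i hi h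
  simp only [repl]
  rw [dif_neg h]

open Classical in
private lemma rp_list (H : RD c0 M a D R y) {i u : ℕ} {l : List ℕ} (hi : i ∈ y) (hul : u ∈ l)
    (hu : u ∈ D i) : (repl c0 M a D R y).2 l =
      if ∀ v ∈ l, v ∈ D i ∪ ms (a i) then (R i).2 l else c0 := by
  have hex : ∃ i, i ∈ y ∧ ∃ u ∈ l, u ∈ D i := ⟨i, hi, u, hul, hu⟩
  simp only [repl]
  rw [dif_pos hex]
  obtain ⟨hj, u', hu'l, hu'⟩ := hex.choose_spec
  generalize hex.choose = j at hj hu' ⊢
  by_cases hij : i = j
  · subst hij; rfl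
  · rw [if_neg (fun h => rp_out H hi hj hu hij (h u hul)),
      if_neg (fun h => rp_out H hj hi hu' (Ne.symm hij) (h u' hu'l))]

private lemma rp_edge_in (H : RD c0 M a D R y) {i u v : ℕ} (hi : i ∈ y)
    (hu : u ∈ D i ∪ ms (a i)) (hv : v ∈ D i ∪ ms (a i)) :
    (repl c0 M a D R y).1 u v = (R i).1 u v := by
  classical
  by_cases h : u ∈ D i ∨ v ∈ D i
  · rw [rp_edge H hi h, if_pos ⟨hu, hv⟩]
  · push Not at h
    have hua : u ∈ ms (a i) := hu.resolve_left h.1
    have hva : v ∈ ms (a i) := hv.resolve_left h.2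
    rw [rp_edge_none (fun j hj h' => Set.disjoint_left.1 (H.disjA i hi j hj) hua h')
      (fun j hj h' => Set.disjoint_left.1 (H.disjA i hi j hj) hva h')]
    exact (H.pi i hi).2.1 (u, u) (mem_dg.2 ⟨rfl, hua⟩) (v, v) (mem_dg.2 ⟨rfl, hva⟩)

private lemma rp_list_in (H : RD c0 M a D R y) {i : ℕ} {l : List ℕ} (hi : i ∈ y)
    (hl : ∀ u ∈ l, u ∈ D i ∪ ms (a i)) : (repl c0 M a D R y).2 l = (R i).2 l := by
  classical
  by_cases h : ∃ u ∈ l, u ∈ D i
  · obtain ⟨u, hul, hu⟩ := h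
    rw [rp_list H hi hul hu, if_pos hl]
  · push Not at h
    have hla : ∀ u ∈ l, u ∈ ms (a i) := fun u hu => (hl u hu).resolve_left (h u hu)
    rw [rp_list_none (fun u hu j hj h' => Set.disjoint_left.1 (H.disjA i hi j hj) (hla u hu) h')]
    have h1 := (H.pi i hi).2.2 (dg l) (by
      intro z hz
      obtain ⟨h1, h2⟩ := mem_dg.1 hz
      exact mem_dg.2 ⟨h1, hla _ h2⟩)
    have e1 : (dg l).map Prod.fst = l := by simp [dg, Function.comp_def]
    have e2 : (dg l).map Prod.snd = l := by simp [dg, Function.comp_def]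
    rw [e1, e2] at h1
    exact h1

private lemma rp_valid (H : RD c0 M a D R y) : Valid c0 (repl c0 M a D R y) := by
  classical
  refine ⟨?_, ?_, ?_⟩
  · intro u v
    by_cases h : ∃ i ∈ y, u ∈ D i ∨ v ∈ D i
    · obtain ⟨i, hi, h⟩ := h
      rw [rp_edge H hi h, rp_edge H hi h.symm, (H.valR i hi).1 u v]
      simp only [and_comm]
    · push Not at h
      rw [rp_edge_none (fun i hi => (h i hi).1) (fun i hi => (h i hi).2),
        rp_edge_none (fun i hi => (h i hi).2) (fun i hi => (h i hi).1), H.val.1]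
  · intro u
    by_cases h : ∃ i ∈ y, u ∈ D i
    · obtain ⟨i, hi, h⟩ := h
      rw [rp_edge_in H hi (Or.inl h) (Or.inl h)]
      exact (H.valR i hi).2.1 u
    · push Not at h
      rw [rp_edge_none h h]
      exact H.val.2.1 u
  · intro l hl u hu v hv huv
    by_cases h : ∃ i ∈ y, ∃ x ∈ l, x ∈ D i
    · obtain ⟨i, hi, x, hx, hxD⟩ := h
      have hall : ∀ v ∈ l, v ∈ D i ∪ ms (a i) := by
        by_contra hcon
        rw [rp_list H hi hx hxD, if_neg hcon] at hl
        exact hl rfl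
      rw [rp_list_in H hi hall] at hl
      rw [rp_edge_in H hi (hall u hu) (hall v hv)]
      exact (H.valR i hi).2.2 l hl u hu v hv huv
    · push Not at h
      rw [rp_list_none (fun u hu i hi => h i hi u hu)] at hl
      rw [rp_edge_none (fun i hi => h i hi u hu) (fun i hi => h i hi v hv)]
      exact H.val.2.2 l hl u hu v hv huv

end

theorem pf_RPF {C : Type} {c0 : C} : RPF C c0 := by
  classical
  intro M a D R y H
  refine ⟨rp_valid H, fun u v hu hv => rp_edge_none hu hv, fun l hl => rp_list_none hl,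
    fun i hi u hu v hv => rp_edge_in H hi hu hv, fun i hi l hl => rp_list_in H hi hl, ?_, ?_⟩
  · intro i hi
    rw [isCp_iff (rp_valid H)]
    refine ⟨⟨(H.cpR i hi).nonempty, ?_⟩, (H.cpM i hi).disj, ?_⟩
    · intro u hu v hv
      obtain ⟨h1, h2⟩ := ((H.cpR i hi).cd (H.valR i hi)).2 u hu v hv
      clear hv
      induction h2 with
      | refl => exact Conn.refl h1
      | tail hb hs ih =>
        rename_i b c
        refine ih.step ?_ hs.2
        have hbD : b ∈ D i := by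
          have := Conn.not_right (M := R i) (A := (D i)ᶜ) ⟨h1, hb⟩
          simpa using this
        have hcD : c ∈ D i := by simpa using hs.2
        rw [rp_edge_in H hi (Or.inl hbD) (Or.inl hcD)]
        exact hs.1
    · rintro u ⟨hu, s, hs, hE⟩
      rw [rp_edge H hi (Or.inr hs)] at hE
      by_cases hc : u ∈ D i ∪ ms (a i) ∧ s ∈ D i ∪ ms (a i)
      · exact hc.1.resolve_left hu
      · rw [if_neg hc] at hE
        exact absurd hE Bool.false_ne_true
  · intro i hi
    refine ⟨id, rfl, Set.bijOn_id _, ?_⟩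
    intro x hx
    have hp : ∀ z ∈ (a i).zip (a i) ++ x.map (fun z => (z, id z)),
        z.1 = z.2 ∧ z.1 ∈ D i ∪ ms (a i) := by
      intro z hz
      rcases List.mem_append.1 hz with hz | hz
      · rw [← dg_eq_zip] at hz
        obtain ⟨h1, h2⟩ := mem_dg.1 hz
        exact ⟨h1, Or.inr h2⟩
      · obtain ⟨v, hv, rfl⟩ := List.mem_map.1 hz
        exact ⟨rfl, Or.inl (hx v hv)⟩
    refine ⟨?_, ?_, ?_⟩
    · intro z hz v hv
      rw [(hp z hz).1, (hp v hv).1]
    · intro z hz v hv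
      rw [← (hp z hz).1, ← (hp v hv).1]
      exact rp_edge_in H hi (hp z hz).2 (hp v hv).2
    · intro q hq
      have e1 : q.map Prod.snd = q.map Prod.fst :=
        List.map_congr_left (fun z hz => (hp z (hq z hz)).1.symm)
      rw [e1]
      refine rp_list_in H hi ?_
      intro u hu
      obtain ⟨z, hz, rfl⟩ := List.mem_map.1 hu
      exact (hp z (hq z hz)).2

end Pool.Agent.TK
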