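import Pool.Agent.H16.TK.Stmt2

/-! RSM: small flaps are uniformly rigid. -/

set_option autoImplicit false

open Set

namespace Pool.Agent.TK

theorem pf_RSM {C : Type} {c0 : C} (hCNT : CNT C c0) (hSCO : SCO C) : RSM C c0 := by
  intro X hX hTC b
  obtain ⟨T, hT, hTv, hT2⟩ := hCNT X hX hTC b
  choose rk hrk using hSCO
  obtain ⟨e, he⟩ : ∃ e : ℕ → Fl C, T ⊆ range e := by
    rcases T.eq_empty_or_nonempty with rfl | hne
    · exact ⟨fun _ => ((fun _ _ => false, fun _ => c0), [], 0), empty_subset _⟩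
    · obtain ⟨e, he⟩ := hT.exists_eq_range hne
      exact ⟨e, he.subset⟩
  let f : ℕ → Rk := fun n => match n with
    | 0 => b
    | n + 1 => rk (e n).1 (e n).2.1 (e n).set
  refine ⟨Rk.sup f, RLe.sup f 0, ?_⟩
  intro M hM a v hv hsm N a' v' hN hv' hF
  obtain ⟨t, htT, ht⟩ := hT2 M hM a v hv hsm
  obtain ⟨n, rfl⟩ := he htT
  have h1 : RLe C (rk (e n).1 (e n).2.1 (e n).set) (Rk.sup f) := RLe.sup f (n + 1)
  exact ht.trans (hrk _ _ _ _ _ _ ((ht.symm.fb _).trans (hF.mono h1)))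

end Pool.Agent.TK
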