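import Pool.Agent.H16.TK.Stmt2

/-! SPL: a flap which is not tame contains such flaps behind every finite set. -/

set_option autoImplicit false

open Set

namespace Pool.Agent.TK

theorem pf_SPL {C : Type} [MeasurableSpace C] {c0 : C} (hFINB : FINB C c0) (hEPM : EPM C c0)
    (_hMMK : MMK C c0) : SPL C c0 := by
  classical
  intro b X hX M hM a D hD hnt e heD
  by_contra hcon
  push Not at hcon
  apply hnt
  have hV := hX.val M hM
  have hfin := hFINB X b hX M hM (a ++ e)
  -- the lists of the big components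
  have hL : ∀ D' : Set ℕ, ∃ l : List ℕ, (IsCp M (ms (a ++ e)) D' ∧ D' ⊆ D) →
      (∀ z ∈ l, z ∈ D') ∧ ∀ v ∈ D', v ∉ l →
        Sm c0 b M (cp M (ms ((a ++ e) ++ l)) v) ∨
          EndP c0 b M ((a ++ e) ++ l) (cp M (ms ((a ++ e) ++ l)) v) := by
    intro D'
    by_cases h : IsCp M (ms (a ++ e)) D' ∧ D' ⊆ D
    · obtain ⟨v, hv⟩ := h.1.nonempty
      have hve : v ∉ e := fun h' => Set.disjoint_left.1 h.1.disj hv (by simp [h'])
      obtain ⟨l, h1, h2⟩ := hcon v (h.2 hv) hve
      have h3 := h.1.eq_cp hV hv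
      rw [← h3] at h1 h2
      exact ⟨l, fun _ => ⟨h1, h2⟩⟩
    · exact ⟨[], fun h' => absurd h' h⟩
  choose L hL using hL
  let F : Finset (Set ℕ) := hfin.toFinset.filter (fun D' => D' ⊆ D)
  have hF : ∀ D', D' ∈ F ↔ (IsCp M (ms (a ++ e)) D' ∧ ¬ small c0 b M (a ++ e) D') ∧ D' ⊆ D := by
    intro D'; simp [F]
  let K : List ℕ := (F.toList.map L).flatten
  have hK : ∀ z, z ∈ K ↔ ∃ D' ∈ F, z ∈ L D' := by
    intro z; simp [K]
  refine ⟨e ++ K, ?_, ?_⟩
  · intro z hz
    rcases List.mem_append.1 hz with hz | hz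
    · exact heD z hz
    · obtain ⟨D', hD', hz⟩ := (hK z).1 hz
      have h1 := (hF D').1 hD'
      exact h1.2 ((hL D' ⟨h1.1.1, h1.2⟩).1 z hz)
  · intro v hvD hv
    have hve : v ∉ e := fun h => hv (List.mem_append_left _ h)
    have hvK : v ∉ K := fun h => hv (List.mem_append_right _ h)
    have hva : v ∉ a := fun h => Set.disjoint_left.1 hD.disj hvD h
    have hvae : v ∉ ms (a ++ e) := by simp [hva, hve]
    have hvn : v ∉ ms (a ++ (e ++ K)) := by simp [hva, hve, hvK]
    set D1 := cp M (ms (a ++ e)) v with hD1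
    have hcp1 : IsCp M (ms (a ++ e)) D1 := isCp_cp hvae
    have hsub1 : D1 ⊆ D := cp_subset hV hD (by rw [ms_append]; exact subset_union_left) hvD
    have hvD1 : v ∈ D1 := self_mem_cp hvae
    -- the new points outside of `L D1` are not in `D1`
    have hout : ∀ D' ∈ F, D' ≠ D1 → ∀ z ∈ L D', z ∉ D1 := by
      intro D' hD' hne z hz hzD1
      have h1 := (hF D').1 hD'
      exact hne (h1.1.1.eq_of_inter hV hcp1 ((hL D' ⟨h1.1.1, h1.2⟩).1 z hz) hzD1)
    by_cases hsm : small c0 b M (a ++ e) D1
    · left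
      have hcp2 : IsCp M (ms (a ++ (e ++ K))) D1 := by
        refine hcp1.change hV ?_ ?_
        · refine (hcp1.nb hV).trans ?_
          rw [ms_append, ms_append, ms_append]
          exact union_subset_union_right _ subset_union_left
        · rw [Set.disjoint_left]
          intro z hz hz'
          rw [← List.append_assoc, ms_append] at hz'
          rcases hz' with hz' | hz'
          · exact Set.disjoint_left.1 hcp1.disj hz hz'
          · obtain ⟨D', hD', hzD'⟩ := (hK z).1 hz'
            refine hout D' hD' ?_ z hzD' hz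
            intro heq
            apply ((hF D').1 hD').1.2
            rw [heq]
            exact hsm
      have h3 := hcp2.eq_cp hV hvD1
      rw [← h3]
      exact ⟨a ++ e, hcp1, hsm⟩
    · have hmemF : D1 ∈ F := (hF D1).2 ⟨⟨hcp1, hsm⟩, hsub1⟩
      have hvL : v ∉ L D1 := fun h => hvK ((hK v).2 ⟨D1, hmemF, h⟩)
      obtain ⟨hL1, hL2⟩ := hL D1 ⟨hcp1, hsub1⟩
      have hcase := hL2 v hvD1 hvL
      set D2 := cp M (ms ((a ++ e) ++ L D1)) v with hD2
      have hvn2 : v ∉ ms ((a ++ e) ++ L D1) := by simp [hva, hve, hvL]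
      have hcp2 : IsCp M (ms ((a ++ e) ++ L D1)) D2 := isCp_cp hvn2
      have hsub2 : D2 ⊆ D1 := cp_subset hV hcp1 (by
        rw [ms_append _ (L D1)]; exact subset_union_left) hvD1
      have hmsub : ms ((a ++ e) ++ L D1) ⊆ ms (a ++ (e ++ K)) := by
        intro z hz
        rw [ms_append] at hz
        rw [← List.append_assoc, ms_append]
        rcases hz with hz | hz
        · exact Or.inl hz
        · exact Or.inr ((hK z).2 ⟨D1, hmemF, hz⟩)
      have hdis : Disjoint D2 (ms (a ++ (e ++ K))) := by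
        rw [Set.disjoint_left]
        intro z hz hz'
        rw [← List.append_assoc, ms_append] at hz'
        rcases hz' with hz' | hz'
        · exact Set.disjoint_left.1 hcp1.disj (hsub2 hz) hz'
        · obtain ⟨D', hD', hzD'⟩ := (hK z).1 hz'
          by_cases hne : D' = D1
          · subst hne
            exact Set.disjoint_left.1 hcp2.disj hz (by rw [ms_append]; exact Or.inr hzD')
          · exact hout D' hD' hne z hzD' (hsub2 hz)
      have hcp3 : IsCp M (ms (a ++ (e ++ K))) D2 :=
        hcp2.change hV ((hcp2.nb hV).trans hmsub) hdis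
      have h3 := hcp3.eq_cp hV (self_mem_cp hvn2)
      rw [← h3]
      rcases hcase with h | h
      · exact Or.inl h
      · exact Or.inr (hEPM b M hV _ _ _ h hmsub hdis)

end Pool.Agent.TK
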