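import Pool.Agent.H16.TK.Stmt2

/-! TA2: if the high levels are small then every late flap is tame. -/

set_option autoImplicit false

open Set

namespace Pool.Agent.TK

theorem pf_TA2 {C : Type} {c0 : C} (hNFA : NFA C c0) (hRST : RST C c0) (hMONO : MONO C c0) :
    TA2 C c0 := by
  classical
  intro b hb M hM w A S hcs n0 hlev l D hD hDn0 hwl
  obtain ⟨hfacts, -, hexh⟩ := hNFA M hM w _ A S hcs
  have hAfin : ∀ n, (A n).Finite := fun n => (hfacts n).1
  have hAmono : ∀ i j, i ≤ j → A i ⊆ A j := by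
    intro i j hij
    induction hij with
    | refl => exact fun _ h => h
    | step h ih => rw [Nat.succ_eq_add_one, hcs.succ]; exact ih.trans subset_union_left
  have hwmono : ∀ i j, i ≤ j → w (A j) ⊆ w (A i) := fun i j hij =>
    hcs.dir.2 _ _ (hAfin j) (hAmono i j hij)
  have hcpA : ∀ n, IsCp M (A n) (w (A n)) := fun n => hcs.dir.1 _ (hAfin n)
  -- avoid the marks
  have hk0 : ∃ k, n0 ≤ k ∧ ∀ z ∈ l, z ∉ w (A k) := by
    clear hD hwl
    induction l with
    | nil => exact ⟨n0, le_rfl, by simp⟩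
    | cons x l ih =>
      obtain ⟨k, hk, h1⟩ := ih
      obtain ⟨m, hm⟩ := hexh x
      refine ⟨max k m, hk.trans (le_max_left _ _), ?_⟩
      intro z hz hzw
      rcases List.mem_cons.1 hz with rfl | hz
      · exact hm (hwmono _ _ (le_max_right _ _) hzw)
      · exact h1 z hz (hwmono _ _ (le_max_left _ _) hzw)
  obtain ⟨k0, hk00, hk0l⟩ := hk0
  obtain ⟨k, hk, hkl, hkS⟩ : ∃ k, n0 ≤ k ∧ (∀ z ∈ l, z ∉ w (A k)) ∧
      (Sm c0 b M (w (A k)) ∨ ∀ j, k ≤ j → ¬ Sm c0 b M (w (A j))) := by
    by_cases h : ∃ j, k0 ≤ j ∧ Sm c0 b M (w (A j))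
    · obtain ⟨j, hj, hs⟩ := h
      exact ⟨j, hk00.trans hj, fun z hz hzw => hk0l z hz (hwmono _ _ hj hzw), Or.inl hs⟩
    · push Not at h
      exact ⟨k0, hk00, hk0l, Or.inr h⟩
  have hdisl : Disjoint (w (A k)) (ms l) := by
    rw [Set.disjoint_left]; intro z hz hzl; exact hkl z hzl hz
  have hwkD : w (A k) ⊆ D := by
    obtain ⟨x, hx⟩ := (hcs.dir.1 (ms l ∪ A k) ((ms_finite l).union (hAfin k))).nonempty
    have h1 := hcs.dir.2 (ms l) (ms l ∪ A k) ((ms_finite l).union (hAfin k)) subset_union_left hx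
    have h2 := hcs.dir.2 (A k) (ms l ∪ A k) ((ms_finite l).union (hAfin k)) subset_union_right hx
    rw [hwl] at h1
    exact ((hcpA k).cd hM).subset hM hD hdisl h2 h1
  obtain ⟨e, he, -, -⟩ := exists_list ((hAfin k).inter_of_left D)
  have heD : ∀ z ∈ e, z ∈ D := by
    intro z hz
    have : z ∈ ms e := hz
    rw [he] at this
    exact this.2
  have heA : ∀ z, z ∈ e ↔ z ∈ A k ∧ z ∈ D := by
    intro z
    rw [← mem_ms, he]; exact Iff.rfl
  refine ⟨e, heD, ?_⟩
  intro v hvD hve
  have hvl : v ∉ l := fun h => Set.disjoint_left.1 hD.disj hvD h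
  have hvAk : v ∉ A k := fun h => hve ((heA v).2 ⟨h, hvD⟩)
  have hvle : v ∉ ms (l ++ e) := by simp [hvl, hve]
  by_cases hvw : v ∈ w (A k)
  · have hcpE : IsCp M (ms (l ++ e)) (w (A k)) := by
      refine (hcpA k).change hM ?_ ?_
      · intro u hu
        have hu1 : u ∈ A k := (hcpA k).nb hM hu
        rw [ms_append]
        by_cases huD : u ∈ D
        · exact Or.inr ((heA u).2 ⟨hu1, huD⟩)
        · left
          obtain ⟨-, s, hs, hE⟩ := hu
          exact hD.nb hM ⟨huD, s, hwkD hs, hE⟩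
      · rw [Set.disjoint_left]
        intro z hz hz'
        rw [ms_append] at hz'
        rcases hz' with hz' | hz'
        · exact hkl z hz' hz
        · exact Set.disjoint_left.1 (hcpA k).disj hz ((heA z).1 hz').1
    have hEq := hcpE.eq_cp hM hvw
    rw [← hEq]
    rcases hkS with hS | hS
    · exact Or.inl hS
    · right
      have hP : Dm M w ⊆ ms (l ++ e) := by
        intro p hp
        have h1 : p ∈ A k := (hfacts k).2.1 hp
        exact hcpE.nb hM (hp (A k) (hAfin k) h1)
      have hwA' : w (ms (l ++ e)) = w (A k) := by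
        have hf := (ms_finite (l ++ e)).union (hAfin k)
        obtain ⟨x, hx⟩ := (hcs.dir.1 (ms (l ++ e) ∪ A k) hf).nonempty
        exact (hcs.dir.1 _ (ms_finite (l ++ e))).eq_of_inter hM hcpE
          (hcs.dir.2 _ _ hf subset_union_left hx) (hcs.dir.2 _ _ hf subset_union_right hx)
      obtain ⟨A'', S'', h1, h2, h3, h4⟩ := hRST M hM w _ A S hcs k (ms (l ++ e)) (ms_finite _) hP hwA'
      refine ⟨w, A'', S'', h1, h2, by rw [h2, hwA'], ?_, ?_⟩
      · intro n
        rw [h3]
        exact hS _ (Nat.le_add_right _ _)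
      · intro n D' hD'
        exact hlev (k + n) (hk.trans (Nat.le_add_right _ _)) D' ((h4 n D').1 hD')
  · left
    obtain ⟨n, hn0, hnk, hvn, hvn1⟩ : ∃ n, n0 ≤ n ∧ n < k ∧ v ∈ w (A n) ∧ v ∉ w (A (n + 1)) := by
      by_contra hcon
      push Not at hcon
      have : ∀ n, n0 ≤ n → n ≤ k → v ∈ w (A n) := by
        intro n hn
        induction hn with
        | refl => exact fun _ => hDn0 hvD
        | step h ih =>
          rename_i m
          intro hmk
          exact hcon m h (by omega) (ih (by omega))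
      exact hvw (this k hk le_rfl)
    have hvAn1 : v ∉ A (n + 1) := fun h => hvAk (hAmono _ _ (by omega) h)
    have hD1 : IsCp M (A (n + 1)) (cp M (A (n + 1)) v) := isCp_cp hvAn1
    have hL : Lev M w A n (cp M (A (n + 1)) v) := by
      refine ⟨hD1, cp_subset hM (hcpA n) (hAmono _ _ (Nat.le_succ n)) hvn, ?_⟩
      intro h
      apply hvn1
      rw [← h]
      exact self_mem_cp hvAn1
    obtain ⟨a1, ha1, hsm⟩ := hlev n hn0 _ hL
    have hE : IsCp M (ms (l ++ e)) (cp M (ms (l ++ e)) v) := isCp_cp hvle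
    have hED : cp M (ms (l ++ e)) v ⊆ D := cp_subset hM hD (by
      rw [ms_append]; exact subset_union_left) hvD
    have hsub : cp M (ms (l ++ e)) v ⊆ cp M (A (n + 1)) v := by
      refine (hE.cd hM).subset hM hD1 ?_ (self_mem_cp hvle) (self_mem_cp hvAn1)
      rw [Set.disjoint_left]
      intro z hz hzA
      exact Set.disjoint_left.1 hE.disj hz (by
        rw [ms_append]; exact Or.inr ((heA z).2 ⟨hAmono _ _ (by omega) hzA, hED hz⟩))
    exact ⟨l ++ e, hE, hMONO b hb M a1 (l ++ e) _ _ hM ha1 hE hsub hsm⟩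

end Pool.Agent.TK
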