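import Pool.Agent.H16.TK.Stmt2
import Pool.Agent.H59.TV.Smooth

/-! THN: a measurable invariant of tuples takes only countably many values on a thin class. -/

set_option autoImplicit false

open Set

namespace Pool.Agent.TK

theorem pf_THN {C : Type} [MeasurableSpace C] [StandardBorelSpace C] : THN C := by
  intro X hX hNF Θ hΘ hinv
  have e : {z | ∃ x, ∃ M ∈ X, Θ x M = z} = ⋃ x : List ℕ, Θ x '' X := by
    ext z; simp
  rw [e]
  refine countable_iUnion fun x => ?_
  by_contra hunc
  have : StandardBorelSpace X := hX.standardBorel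
  obtain ⟨f, hf, hfΘ⟩ := Pool.Agent.H59.TV.exists_perfect_of_smooth
    (fun M : X => Θ x M) ((hΘ x).comp measurable_subtype_coe) (by
      rwa [show range (fun M : X => Θ x M) = Θ x '' X by ext; simp])
  obtain ⟨u, v, huv, h, h1, h2, h3⟩ := hNF (fun u => (f u : St C)) x
    (measurable_subtype_coe.comp hf) (fun u => (f u).2)
  apply hfΘ u v huv
  have h4 := hinv h _ (f u).2 _ (f v).2 x ⟨h2, h3⟩
  have h5 : x.map h = x := by
    conv_rhs => rw [← List.map_id x]
    exact List.map_congr_left h1
  rw [h5] at h4
  exact h4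

end Pool.Agent.TK
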