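import Pool.Agent.H16.TK.Stmt2

/-! VBT: transfer of very big components. -/

set_option autoImplicit false

open Set

namespace Pool.Agent.TK

private lemma Conn.inside {C : Type} {M : St C} {A U : Set ℕ} {u v : ℕ} (h : Conn M A u v)
    (hU : cp M A u ⊆ U) : Conn M (Uᶜ ∪ A) u v := by
  obtain ⟨h1, h2⟩ := h
  induction h2 with
  | refl =>
    refine Conn.refl ?_
    rintro (h | h)
    · exact h (hU (self_mem_cp h1))
    · exact h1 h
  | tail hb hs ih =>
    rename_i b c
    refine ih.step hs.1 ?_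
    rintro (h | h)
    · exact h (hU (Conn.step ⟨h1, hb⟩ hs.1 hs.2))
    · exact hs.2 h

theorem pf_VBT {C : Type} {c0 : C} (hREL : REL C) (hCTR : CTR C) : VBT C c0 := by
  intro b hb M M' U U' p a a' v v' hM hM' hbf hlen hap hvp hva hcU hcU' hVB
  have hPI := bf_PI hbf
  have hv'a : v' ∉ a' := by
    intro h
    obtain ⟨i, hi, rfl⟩ := List.mem_iff_getElem.1 h
    have hi' : i < a.length := by omega
    have hz : (a[i], a'[i]) ∈ a.zip a' := by
      rw [List.mem_iff_getElem]
      exact ⟨i, by simp; omega, by simp⟩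
    have h1 := (hPI.1 _ (hap _ hz) _ hvp).2 rfl
    change a[i] = v at h1
    apply hva
    rw [← h1]
    exact List.getElem_mem hi'
  have hvU : v ∈ U := hcU (self_mem_cp hva)
  have hvU' : v' ∈ U' := hcU' (self_mem_cp hv'a)
  refine ⟨hv'a, ?_⟩
  intro e' he'
  obtain ⟨e, hel, heU, hbf1⟩ := lim_ext_suc' hbf 1 e' (fun z hz => hcU' (he' z hz))
  have hsub : ∀ z ∈ a.zip a', z ∈ e.zip e' ++ p := fun z hz => List.mem_append_right _ (hap z hz)
  have hbf1om : bf M M' U U' om (e.zip e' ++ p) :=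
    (RLe.trans (RLe.om_W b) (RLe.sucN 1 (W b))) _ _ _ _ _ hbf1
  -- the elements of `e` lie in the component of `v`
  have hecp : ∀ z ∈ e, z ∈ cp M (ms a) v := by
    intro z hz
    obtain ⟨i, hi, rfl⟩ := List.mem_iff_getElem.1 hz
    have hi' : i < e'.length := by omega
    have hzz : (e[i], e'[i]) ∈ e.zip e' := by
      rw [List.mem_iff_getElem]
      exact ⟨i, by simp; omega, by simp⟩
    have h1 : Conn M' (ms a') v' e'[i] := he' _ (List.getElem_mem hi')
    have h2 := h1.inside hcU'
    have h3 := hCTR M' M U' U _ a' a v' v e'[i] e[i] (bf_symm hbf1om) hlen.symm (by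
        intro w hw
        rw [← swap_zip] at hw
        obtain ⟨w', hw', rfl⟩ := List.mem_map.1 hw
        exact List.mem_map_of_mem (hsub w' hw'))
      (List.mem_map.2 ⟨(v, v'), List.mem_append_right _ hvp, rfl⟩)
      (List.mem_map.2 ⟨(e[i], e'[i]), List.mem_append_left _ hzz, rfl⟩) hvU
      (heU _ (List.getElem_mem hi)) h2
    exact h3.mono (fun x hx => Or.inr hx)
  obtain ⟨x, hx, hxe, hns⟩ := hVB.2 e hecp
  obtain ⟨x', hx'U, hbf2⟩ := (hbf1 0).2.1 x (hcU hx)
  have hbf2' : bf M M' U U' (W b) ((x, x') :: (e.zip e' ++ p)) := hbf2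
  have hbf2om : bf M M' U U' om ((x, x') :: (e.zip e' ++ p)) := RLe.om_W b _ _ _ _ _ hbf2'
  have hsub2 : ∀ z ∈ a.zip a', z ∈ (x, x') :: (e.zip e' ++ p) :=
    fun z hz => List.mem_cons_of_mem _ (hsub z hz)
  have hx'cp : x' ∈ cp M' (ms a') v' := by
    have h1 : Conn M (ms a) v x := hx
    have h3 := hCTR M M' U U' _ a a' v v' x x' hbf2om hlen hsub2
      (List.mem_cons_of_mem _ (List.mem_append_right _ hvp)) List.mem_cons_self hvU' hx'U
      (h1.inside hcU)
    exact h3.mono (fun x hx => Or.inr hx)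
  have hPI2 := bf_PI hbf2'
  have hx'e : x' ∉ e' := by
    intro h
    obtain ⟨i, hi, h1⟩ := List.mem_iff_getElem.1 h
    have hi' : i < e.length := by omega
    have hz : (e[i], e'[i]) ∈ e.zip e' := by
      rw [List.mem_iff_getElem]
      exact ⟨i, by simp; omega, by simp⟩
    have h2 := (hPI2.1 (e[i], e'[i]) (List.mem_cons_of_mem _ (List.mem_append_left _ hz)) (x, x')
      List.mem_cons_self).2 h1
    apply hxe
    change e[i] = x at h2
    rw [← h2]
    exact List.getElem_mem hi'
  refine ⟨x', hx'cp, hx'e, ?_⟩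
  intro hsm
  apply hns
  have hll : (a ++ e).length = (a' ++ e').length := by simp [hlen, hel]
  have hzip : (a ++ e).zip (a' ++ e') = a.zip a' ++ e.zip e' := List.zip_append hlen
  have hsub3 : ∀ z ∈ (a ++ e).zip (a' ++ e'), z ∈ (x, x') :: (e.zip e' ++ p) := by
    intro z hz
    rw [hzip] at hz
    rcases List.mem_append.1 hz with hz | hz
    · exact hsub2 z hz
    · exact List.mem_cons_of_mem _ (List.mem_append_left _ hz)
  have hxa : x ∉ a := (Conn.not_right (show Conn M (ms a) v x from hx))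
  have h4 := hREL M M' U U' b _ (a ++ e) (a' ++ e') x x' hbf2' hll hsub3 List.mem_cons_self
    (by simp [hxa, hxe])
    ((cp_subset hM (isCp_cp (show v ∉ ms a from hva)) (by rw [ms_append]; exact subset_union_left)
      hx).trans hcU)
    ((cp_subset hM' (isCp_cp (show v' ∉ ms a' from hv'a)) (by
      rw [ms_append]; exact subset_union_left) hx'cp).trans hcU')
  have h5 : FB b M (a ++ e) (cp M (ms (a ++ e)) x) M' (a' ++ e') (cp M' (ms (a' ++ e')) x') :=
    ⟨hll, bf_mono h4 hsub3⟩
  exact hsm.fb h5.symm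

end Pool.Agent.TK
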