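import Pool.Agent.H75.TK.Scott

/-!
# Composition lemma: simultaneous replacement of disjoint pieces
-/

set_option autoImplicit false

open Set

namespace Pool.Agent.H75.TK

variable {C : Type*} {ι : Type*}

/-- `c'` is obtained from `c` by changing only the pieces `D i` (with boundary `A i`);
`d` is the default value -/
structure Repl (d : C) (c c' : List ℕ → C) (E : Set ℕ) (D : ι → Set ℕ) (A : ι → List ℕ) :
    Prop where
  disj : ∀ i j x, x ∈ D i → x ∈ D j → i = j
  sub : ∀ i, D i ⊆ E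
  bdry : ∀ i, ∀ a ∈ A i, ∀ j, a ∉ D j
  out : ∀ l : List ℕ, (∀ x ∈ l, ∀ i, x ∉ D i) → c l = c' l
  loc : ∀ i, ∀ l : List ℕ, (∃ x ∈ l, x ∈ D i) → (∃ x ∈ l, x ∉ D i ∧ x ∉ A i) → c l = d
  loc' : ∀ i, ∀ l : List ℕ, (∃ x ∈ l, x ∈ D i) → (∃ x ∈ l, x ∉ D i ∧ x ∉ A i) → c' l = d

/-- the invariant of the composed game -/
private def Inv (c c' : List ℕ → C) (D : ι → Set ℕ) (A : ι → List ℕ) (r : Clk) (p : Pos) : Prop :=
  (∀ q ∈ p, (q.1 = q.2 ∧ ∀ i, q.1 ∉ D i) ∨ ∃ i, q.1 ∈ D i ∧ q.2 ∈ D i) ∧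
  ∀ i, ∃ pi : Pos, (∀ q ∈ p, q.1 ∈ D i → q ∈ pi) ∧
    BF c c' (D i) (D i) r (pi ++ (A i).map fun x => (x, x))

private lemma Inv.atom {d : C} {c c' : List ℕ → C} {E : Set ℕ} {D : ι → Set ℕ} {A : ι → List ℕ}
    (h : Repl d c c' E D A) {r : Clk} {p : Pos} (hI : Inv c c' D A r p) : Atom c c' p := by
  obtain ⟨h1, h2⟩ := hI
  refine ⟨fun l hl => ?_, fun q hq q' hq' => ?_⟩
  · by_cases hcase : ∃ q ∈ l, ∃ i, q.1 ∈ D i
    · obtain ⟨q0, hq0, i, hi⟩ := hcase
      have hq0' : q0.2 ∈ D i := by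
        rcases h1 q0 (hl q0 hq0) with ⟨-, h3⟩ | ⟨j, hj, hj'⟩
        · exact (h3 i hi).elim
        · rw [h.disj i j _ hi hj]; exact hj'
      by_cases hin : ∀ q ∈ l, q.1 ∈ D i ∨ q.1 ∈ A i
      · obtain ⟨pi, hpi, hbf⟩ := h2 i
        refine hbf.atom.1 l fun q hq => ?_
        rcases hin q hq with h3 | h3
        · exact List.mem_append_left _ (hpi q (hl q hq) h3)
        · refine List.mem_append_right _ ?_
          rcases h1 q (hl q hq) with ⟨h4, -⟩ | ⟨j, hj, -⟩
          · refine List.mem_map.2 ⟨q.1, h3, ?_⟩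
            exact Prod.ext rfl h4
          · exact (h.bdry i _ h3 j hj).elim
      · push Not at hin
        obtain ⟨q1, hq1, h3, h4⟩ := hin
        rw [h.loc i _ ⟨q0.1, List.mem_map_of_mem hq0, hi⟩
          ⟨q1.1, List.mem_map_of_mem hq1, h3, h4⟩]
        refine (h.loc' i _ ⟨q0.2, List.mem_map_of_mem hq0, hq0'⟩
          ⟨q1.2, List.mem_map_of_mem hq1, ?_⟩).symm
        rcases h1 q1 (hl q1 hq1) with ⟨h5, -⟩ | ⟨j, hj, hj'⟩
        · rw [← h5]; exact ⟨h3, h4⟩
        · refine ⟨fun h6 => h3 ?_, fun h6 => h.bdry i _ h6 j hj'⟩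
          rw [h.disj i j _ h6 hj']; exact hj
    · push Not at hcase
      have h3 : l.map Prod.fst = l.map Prod.snd := by
        apply List.map_congr_left
        intro q hq
        rcases h1 q (hl q hq) with ⟨h4, -⟩ | ⟨j, hj, -⟩
        · exact h4
        · exact (hcase q hq j hj).elim
      rw [← h3]
      refine h.out _ fun x hx i => ?_
      obtain ⟨q, hq, rfl⟩ := List.mem_map.1 hx
      exact hcase q hq i
  · rcases h1 q hq with ⟨h3, h4⟩ | ⟨i, hi, hi'⟩
    · rcases h1 q' hq' with ⟨h5, h6⟩ | ⟨j, hj, hj'⟩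
      · rw [h3, h5]
      · refine ⟨fun h7 => (h4 j (h7 ▸ hj)).elim, fun h7 => (h4 j ?_).elim⟩
        rw [h3, h7]; exact hj'
    · rcases h1 q' hq' with ⟨h5, h6⟩ | ⟨j, hj, hj'⟩
      · refine ⟨fun h7 => (h6 i (h7 ▸ hi)).elim, fun h7 => (h6 i ?_).elim⟩
        rw [h5, ← h7]; exact hi'
      · by_cases hij : i = j
        · subst hij
          obtain ⟨pi, hpi, hbf⟩ := h2 i
          exact hbf.atom.2 q (List.mem_append_left _ (hpi q hq hi)) q'
            (List.mem_append_left _ (hpi q' hq' hj))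
        · exact ⟨fun h7 => (hij (h.disj i j _ hi (h7 ▸ hj))).elim,
            fun h7 => (hij (h.disj i j _ hi' (h7 ▸ hj'))).elim⟩

private lemma Inv.bf {d : C} {c c' : List ℕ → C} {E : Set ℕ} {D : ι → Set ℕ} {A : ι → List ℕ}
    (h : Repl d c c' E D A) (r : Clk) : ∀ p, Inv c c' D A r p → BF c c' E E r p := by
  induction r with
  | zero => intro p hI; exact hI.atom h
  | mk f ih =>
    intro p hI
    rw [BF_mk]
    refine ⟨hI.atom h, fun n => ⟨fun x hx => ?_, fun y hy => ?_⟩⟩
    · by_cases hcase : ∃ i, x ∈ D i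
      · obtain ⟨i, hi⟩ := hcase
        obtain ⟨pi, hpi, hbf⟩ := hI.2 i
        obtain ⟨y, hy, h1⟩ := hbf.forth n hi
        refine ⟨y, h.sub i hy, ih n _ ⟨?_, fun j => ?_⟩⟩
        · intro q hq
          rcases List.mem_cons.1 hq with rfl | hq
          · exact Or.inr ⟨i, hi, hy⟩
          · exact hI.1 q hq
        · by_cases hij : i = j
          · subst hij
            refine ⟨(x, y) :: pi, ?_, h1⟩
            intro q hq hqi
            rcases List.mem_cons.1 hq with rfl | hq
            · exact List.mem_cons_self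
            · exact List.mem_cons_of_mem _ (hpi q hq hqi)
          · obtain ⟨pj, hpj, hbfj⟩ := hI.2 j
            refine ⟨pj, ?_, hbfj.mono_clk (Clk.child_le f n)⟩
            intro q hq hqj
            rcases List.mem_cons.1 hq with rfl | hq
            · exact (hij (h.disj i j _ hi hqj)).elim
            · exact hpj q hq hqj
      · push Not at hcase
        refine ⟨x, hx, ih n _ ⟨?_, fun j => ?_⟩⟩
        · intro q hq
          rcases List.mem_cons.1 hq with rfl | hq
          · exact Or.inl ⟨rfl, hcase⟩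
          · exact hI.1 q hq
        · obtain ⟨pj, hpj, hbfj⟩ := hI.2 j
          refine ⟨pj, ?_, hbfj.mono_clk (Clk.child_le f n)⟩
          intro q hq hqj
          rcases List.mem_cons.1 hq with rfl | hq
          · exact (hcase j hqj).elim
          · exact hpj q hq hqj
    · by_cases hcase : ∃ i, y ∈ D i
      · obtain ⟨i, hi⟩ := hcase
        obtain ⟨pi, hpi, hbf⟩ := hI.2 i
        obtain ⟨x, hx, h1⟩ := hbf.back n hi
        refine ⟨x, h.sub i hx, ih n _ ⟨?_, fun j => ?_⟩⟩
        · intro q hq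
          rcases List.mem_cons.1 hq with rfl | hq
          · exact Or.inr ⟨i, hx, hi⟩
          · exact hI.1 q hq
        · by_cases hij : i = j
          · subst hij
            refine ⟨(x, y) :: pi, ?_, h1⟩
            intro q hq hqi
            rcases List.mem_cons.1 hq with rfl | hq
            · exact List.mem_cons_self
            · exact List.mem_cons_of_mem _ (hpi q hq hqi)
          · obtain ⟨pj, hpj, hbfj⟩ := hI.2 j
            refine ⟨pj, ?_, hbfj.mono_clk (Clk.child_le f n)⟩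
            intro q hq hqj
            rcases List.mem_cons.1 hq with rfl | hq
            · exact (hij (h.disj i j _ hx hqj)).elim
            · exact hpj q hq hqj
      · push Not at hcase
        refine ⟨y, hy, ih n _ ⟨?_, fun j => ?_⟩⟩
        · intro q hq
          rcases List.mem_cons.1 hq with rfl | hq
          · exact Or.inl ⟨rfl, hcase⟩
          · exact hI.1 q hq
        · obtain ⟨pj, hpj, hbfj⟩ := hI.2 j
          refine ⟨pj, ?_, hbfj.mono_clk (Clk.child_le f n)⟩
          intro q hq hqj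
          rcases List.mem_cons.1 hq with rfl | hq
          · exact (hcase j hqj).elim
          · exact hpj q hq hqj

/-- COMPOSITION LEMMA: replacing simultaneously disjoint pieces by `r`-equivalent ones gives an
`r`-equivalent structure -/
theorem Repl.bf {d : C} {c c' : List ℕ → C} {E : Set ℕ} {D : ι → Set ℕ} {A : ι → List ℕ}
    (h : Repl d c c' E D A) {r : Clk}
    (hbf : ∀ i, BF c c' (D i) (D i) r ((A i).map fun x => (x, x)))
    {b : List ℕ} (hb : ∀ x ∈ b, ∀ i, x ∉ D i) : BF c c' E E r (b.map fun x => (x, x)) := by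
  refine Inv.bf h r _ ⟨?_, fun i => ⟨[], ?_, by simpa using hbf i⟩⟩
  · intro q hq
    obtain ⟨x, hx, rfl⟩ := List.mem_map.1 hq
    exact Or.inl ⟨rfl, hb x hx⟩
  · intro q hq hqi
    obtain ⟨x, hx, rfl⟩ := List.mem_map.1 hq
    exact (hb x hx i hqi).elim

/-- the same for all clocks -/
theorem Repl.eq {d : C} {c c' : List ℕ → C} {E : Set ℕ} {D : ι → Set ℕ} {A : ι → List ℕ}
    (h : Repl d c c' E D A) (hbf : ∀ i, EQ c c' (D i) (D i) ((A i).map fun x => (x, x)))
    {b : List ℕ} (hb : ∀ x ∈ b, ∀ i, x ∉ D i) : EQ c c' E E (b.map fun x => (x, x)) :=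
  fun _ => h.bf (fun i => hbf i _) hb

end Pool.Agent.H75.TK
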