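import Pool.Agent.H75.TK.Scott

/-!
# Equivalence for all clocks gives isomorphisms; transport of pieces
-/

set_option autoImplicit false

open Set

namespace Pool.Agent.H75.TK

variable {C : Type*} {c c' c'' : List ℕ → C} {D D' D'' : Set ℕ} {r s : Clk} {p q : Pos}

/-- isomorphic structures are equivalent for all clocks, with any boundary -/
lemma EQ_of_map {φ : ℕ → ℕ} (hφ : BijOn φ D D') (a : List ℕ)
    (hinj : InjOn φ (D ∪ {x | x ∈ a})) (hc : ∀ l : List ℕ, (∀ x ∈ l, x ∈ D ∨ x ∈ a) →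
      c l = c' (l.map φ)) : EQ c c' D D' (a.map fun x => (x, φ x)) := by
  suffices H : ∀ r : Clk, ∀ b : List ℕ, (∀ x ∈ b, x ∈ D ∨ x ∈ a) →
      BF c c' D D' r (b.map fun x => (x, φ x)) from fun r => H r a fun x hx => Or.inr hx
  have hat : ∀ b : List ℕ, (∀ x ∈ b, x ∈ D ∨ x ∈ a) →
      Atom c c' (b.map fun x => (x, φ x)) := by
    intro b hb
    refine ⟨fun l hl => ?_, fun q hq q' hq' => ?_⟩
    · have h1 : l.map Prod.snd = (l.map Prod.fst).map φ := by
        rw [List.map_map]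
        apply List.map_congr_left
        intro q hq
        obtain ⟨x, -, rfl⟩ := List.mem_map.1 (hl q hq)
        rfl
      rw [h1]
      refine hc _ fun x hx => ?_
      obtain ⟨q, hq, rfl⟩ := List.mem_map.1 hx
      obtain ⟨z, hz, rfl⟩ := List.mem_map.1 (hl q hq)
      exact hb z hz
    · obtain ⟨x, hx, rfl⟩ := List.mem_map.1 hq
      obtain ⟨y, hy, rfl⟩ := List.mem_map.1 hq'
      exact (hinj.eq_iff (hb x hx) (hb y hy)).symm
  intro r
  induction r with
  | zero => exact hat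
  | mk f ih =>
    intro b hb
    rw [BF_mk]
    refine ⟨hat b hb, fun n => ⟨fun x hx => ⟨φ x, hφ.1 hx, ?_⟩, fun y hy => ?_⟩⟩
    · refine ih n (x :: b) fun z hz => ?_
      rcases List.mem_cons.1 hz with rfl | hz
      · exact Or.inl hx
      · exact hb z hz
    · obtain ⟨x, hx, rfl⟩ := hφ.2.2 hy
      refine ⟨x, hx, ih n (x :: b) fun z hz => ?_⟩
      rcases List.mem_cons.1 hz with rfl | hz
      · exact Or.inl hx
      · exact hb z hz

/-- equivalent structures on `ℕ` are isomorphic -/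
theorem EQ.exists_perm (h : EQ c c' univ univ p) :
    ∃ σ : Equiv.Perm ℕ, (∀ q ∈ p, σ q.1 = q.2) ∧ ∀ l, c' (l.map σ) = c l := by
  classical
  -- the chain of positions
  have step : ∀ P : {P : Pos // EQ c c' univ univ P}, ∀ n : ℕ,
      ∃ Q : {P : Pos // EQ c c' univ univ P}, (∀ q ∈ P.1, q ∈ Q.1) ∧
        (∃ y, (n, y) ∈ Q.1) ∧ ∃ x, (x, n) ∈ Q.1 := by
    rintro ⟨P, hP⟩ n
    obtain ⟨y, -, h1⟩ := hP.forth (mem_univ n)
    obtain ⟨x, -, h2⟩ := h1.back (mem_univ n)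
    refine ⟨⟨_, h2⟩, fun q hq => ?_, ⟨y, ?_⟩, ⟨x, ?_⟩⟩
    · exact List.mem_cons_of_mem _ (List.mem_cons_of_mem _ hq)
    · exact List.mem_cons_of_mem _ List.mem_cons_self
    · exact List.mem_cons_self
  choose F hF1 hF2 hF3 using step
  let P : ℕ → {P : Pos // EQ c c' univ univ P} := fun n => Nat.rec ⟨p, h⟩ (fun n Q => F Q n) n
  have hmono1 : ∀ n, ∀ q ∈ (P n).1, q ∈ (P (n + 1)).1 := fun n q hq => hF1 (P n) n q hq
  have hmono : ∀ m n, m ≤ n → ∀ q ∈ (P m).1, q ∈ (P n).1 := by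
    intro m n hmn
    induction hmn with
    | refl => exact fun q hq => hq
    | step _ ih => exact fun q hq => hmono1 _ q (ih q hq)
  have hL : ∀ n, ∃ y, (n, y) ∈ (P (n + 1)).1 := fun n => hF2 (P n) n
  have hR : ∀ n, ∃ x, (x, n) ∈ (P (n + 1)).1 := fun n => hF3 (P n) n
  choose φ hφ using hL
  choose ψ hψ using hR
  have hat : ∀ n, Atom c c' (P n).1 := fun n => ((P n).2 .zero).atom
  have hφu : ∀ n x y, (x, y) ∈ (P n).1 → y = φ x := by
    intro n x y hxy
    exact ((hat (max n (x + 1))).2 (x, y) (hmono _ _ (le_max_left _ _) _ hxy) (x, φ x)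
      (hmono _ _ (le_max_right _ _) _ (hφ x))).1 rfl
  have hψu : ∀ n x y, (x, y) ∈ (P n).1 → x = ψ y := by
    intro n x y hxy
    exact ((hat (max n (y + 1))).2 (x, y) (hmono _ _ (le_max_left _ _) _ hxy) (ψ y, y)
      (hmono _ _ (le_max_right _ _) _ (hψ y))).2 rfl
  refine ⟨⟨φ, ψ, fun x => ?_, fun y => ?_⟩, fun q hq => ?_, fun l => ?_⟩
  · exact (hψu (x + 1) _ _ (hφ x)).symm
  · exact (hφu (y + 1) _ _ (hψ y)).symm
  · exact (hφu 0 q.1 q.2 hq).symm
  · -- all the entries of `l` occur at one stage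
    obtain ⟨N, hN⟩ : ∃ N, ∀ x ∈ l, (x, φ x) ∈ (P N).1 := by
      induction l with
      | nil => exact ⟨0, by simp⟩
      | cons x l ih =>
        obtain ⟨N, hN⟩ := ih
        refine ⟨max N (x + 1), fun z hz => ?_⟩
        rcases List.mem_cons.1 hz with rfl | hz
        · exact hmono _ _ (le_max_right _ _) _ (hφ z)
        · exact hmono _ _ (le_max_left _ _) _ (hN z hz)
    have h1 := (hat N).1 (l.map fun x => (x, φ x)) (by
      intro q hq
      obtain ⟨x, hx, rfl⟩ := List.mem_map.1 hq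
      exact hN x hx)
    rw [List.map_map, List.map_map] at h1
    simpa [Function.comp_def] using h1.symm

/-- transport of a piece to another infinite vertex set with given boundary -/
theorem exists_transport {E : Set ℕ} (hD : D.Infinite) (hE : E.Infinite) (p : Pos)
    (h1 : ∀ q ∈ p, q.1 ∉ E ∧ q.2 ∉ D) (h2 : ∀ q ∈ p, ∀ q' ∈ p, (q.1 = q'.1 ↔ q.2 = q'.2))
    (c : List ℕ → C) : ∃ c'' : List ℕ → C, EQ c'' c E D p := by
  classical
  have e1 : Nonempty (E ≃ D) := by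
    have := hD.to_subtype
    have := hE.to_subtype
    have i1 : Nonempty (Denumerable D) := nonempty_denumerable _
    have i2 : Nonempty (Denumerable E) := nonempty_denumerable _
    exact ⟨@Denumerable.equiv₂ _ _ i2.some i1.some⟩
  obtain ⟨e⟩ := e1
  -- the map on the boundary
  have e2 : ∀ x, ∃ y, (∃ q ∈ p, q.1 = x) → ∃ q ∈ p, q.1 = x ∧ q.2 = y := by
    intro x
    by_cases hx : ∃ q ∈ p, q.1 = x
    · obtain ⟨q, hq, hqx⟩ := hx
      exact ⟨q.2, fun _ => ⟨q, hq, hqx, rfl⟩⟩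
    · exact ⟨0, fun h => (hx h).elim⟩
  choose g hg using e2
  have hg' : ∀ q ∈ p, g q.1 = q.2 := by
    intro q hq
    obtain ⟨q', hq', h3, h4⟩ := hg q.1 ⟨q, hq, rfl⟩
    rw [← h4]
    exact (h2 q' hq' q hq).1 h3
  let φ : ℕ → ℕ := fun x => if h : x ∈ E then e ⟨x, h⟩ else g x
  have hφE : ∀ x (h : x ∈ E), φ x = e ⟨x, h⟩ := fun x h => dif_pos h
  have hφp : ∀ q ∈ p, φ q.1 = q.2 := fun q hq => by
    show (if h : q.1 ∈ E then ((e ⟨q.1, h⟩ : D) : ℕ) else g q.1) = q.2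
    rw [dif_neg (h1 q hq).1]
    exact hg' q hq
  have hbij : BijOn φ E D := by
    refine ⟨fun x hx => ?_, fun x hx y hy hxy => ?_, fun y hy => ?_⟩
    · rw [hφE x hx]; exact (e ⟨x, hx⟩).2
    · rw [hφE x hx, hφE y hy] at hxy
      have := e.injective (Subtype.ext hxy)
      exact congrArg Subtype.val this
    · refine ⟨e.symm ⟨y, hy⟩, (e.symm ⟨y, hy⟩).2, ?_⟩
      rw [hφE _ (e.symm ⟨y, hy⟩).2]
      simp
  have hinj : InjOn φ (E ∪ {x | x ∈ p.map Prod.fst}) := by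
    rintro x hx y hy hxy
    rcases hx with hx | hx <;> rcases hy with hy | hy
    · exact hbij.2.1 hx hy hxy
    · obtain ⟨q, hq, rfl⟩ := List.mem_map.1 hy
      exact ((h1 q hq).2 (by rw [← hφp q hq, ← hxy]; exact hbij.1 hx)).elim
    · obtain ⟨q, hq, rfl⟩ := List.mem_map.1 hx
      exact ((h1 q hq).2 (by rw [← hφp q hq, hxy]; exact hbij.1 hy)).elim
    · obtain ⟨q, hq, rfl⟩ := List.mem_map.1 hx
      obtain ⟨q', hq', rfl⟩ := List.mem_map.1 hy
      rw [hφp q hq, hφp q' hq'] at hxy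
      exact (h2 q hq q' hq').2 hxy
  refine ⟨fun l => c (l.map φ), ?_⟩
  have h3 := EQ_of_map (c := fun l => c (l.map φ)) (c' := c) hbij (p.map Prod.fst) hinj
    fun l _ => rfl
  refine h3.mono_pos fun q hq => ?_
  rw [List.map_map]
  refine List.mem_map.2 ⟨q, hq, ?_⟩
  exact Prod.ext rfl (hφp q hq)

end Pool.Agent.H75.TK
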