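import Pool.Agent.H16.TK.Stmt2
import Pool.Agent.H71.CC

/-! NFM: perfect families of pointed structures give perfectly many isomorphism types. -/

set_option autoImplicit false

open Set

namespace Pool.Agent.TK

private lemma measurableSet_isoH {C : Type} [MeasurableSpace C] [StandardBorelSpace C] {Z : Type}
    [MeasurableSpace Z] (f : Z → St C) (hf : Measurable f) :
    MeasurableSet {w : (Z × Z) × ((ℕ → ℕ) × (ℕ → ℕ)) |
      (∀ n, w.2.1 (w.2.2 n) = n) ∧ (∀ n, w.2.2 (w.2.1 n) = n) ∧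
      (∀ u v, (f w.1.1).1 u v = (f w.1.2).1 (w.2.1 u) (w.2.1 v)) ∧
      ∀ l : List ℕ, (f w.1.1).2 l = (f w.1.2).2 (l.map w.2.1)} := by
  have hev1 : ∀ n m : ℕ, MeasurableSet {w : (Z × Z) × ((ℕ → ℕ) × (ℕ → ℕ)) | w.2.1 n = m} :=
    fun n m => measurableSet_eq_fun
      ((measurable_pi_apply n).comp (measurable_fst.comp measurable_snd)) measurable_const
  have hev2 : ∀ n m : ℕ, MeasurableSet {w : (Z × Z) × ((ℕ → ℕ) × (ℕ → ℕ)) | w.2.2 n = m} :=
    fun n m => measurableSet_eq_fun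
      ((measurable_pi_apply n).comp (measurable_snd.comp measurable_snd)) measurable_const
  have hl : ∀ l m : List ℕ,
      MeasurableSet {w : (Z × Z) × ((ℕ → ℕ) × (ℕ → ℕ)) | l.map w.2.1 = m} := by
    intro l
    induction l with
    | nil => intro m; simp
    | cons a l ih =>
      intro m
      cases m with
      | nil => simp
      | cons b m =>
        have : {w : (Z × Z) × ((ℕ → ℕ) × (ℕ → ℕ)) | (a :: l).map w.2.1 = b :: m} =
            {w | w.2.1 a = b} ∩ {w | l.map w.2.1 = m} := by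
          ext w; simp
        rw [this]
        exact (hev1 a b).inter (ih m)
  have hf1 : Measurable fun w : (Z × Z) × ((ℕ → ℕ) × (ℕ → ℕ)) => f w.1.1 :=
    hf.comp (measurable_fst.comp measurable_fst)
  have hf2 : Measurable fun w : (Z × Z) × ((ℕ → ℕ) × (ℕ → ℕ)) => f w.1.2 :=
    hf.comp (measurable_snd.comp measurable_fst)
  have hg : ∀ u v u' v' : ℕ, MeasurableSet {w : (Z × Z) × ((ℕ → ℕ) × (ℕ → ℕ)) |
      (f w.1.1).1 u v = (f w.1.2).1 u' v'} := by
    intro u v u' v'
    exact measurableSet_eq_fun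
      ((measurable_pi_apply v).comp ((measurable_pi_apply u).comp (measurable_fst.comp hf1)))
      ((measurable_pi_apply v').comp ((measurable_pi_apply u').comp (measurable_fst.comp hf2)))
  refine MeasurableSet.inter ?_ (MeasurableSet.inter ?_ (MeasurableSet.inter ?_ ?_))
  · have : {w : (Z × Z) × ((ℕ → ℕ) × (ℕ → ℕ)) | ∀ n, w.2.1 (w.2.2 n) = n} =
        ⋂ n, ⋃ m, {w | w.2.2 n = m} ∩ {w | w.2.1 m = n} := by
      ext w; simp
    change MeasurableSet {w : (Z × Z) × ((ℕ → ℕ) × (ℕ → ℕ)) | ∀ n, w.2.1 (w.2.2 n) = n}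
    rw [this]
    exact MeasurableSet.iInter fun n => MeasurableSet.iUnion fun m => (hev2 n m).inter (hev1 m n)
  · have : {w : (Z × Z) × ((ℕ → ℕ) × (ℕ → ℕ)) | ∀ n, w.2.2 (w.2.1 n) = n} =
        ⋂ n, ⋃ m, {w | w.2.1 n = m} ∩ {w | w.2.2 m = n} := by
      ext w; simp
    change MeasurableSet {w : (Z × Z) × ((ℕ → ℕ) × (ℕ → ℕ)) | ∀ n, w.2.2 (w.2.1 n) = n}
    rw [this]
    exact MeasurableSet.iInter fun n => MeasurableSet.iUnion fun m => (hev1 n m).inter (hev2 m n)
  · have : {w : (Z × Z) × ((ℕ → ℕ) × (ℕ → ℕ)) |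
        ∀ u v, (f w.1.1).1 u v = (f w.1.2).1 (w.2.1 u) (w.2.1 v)} =
        ⋂ u, ⋂ v, ⋃ u', ⋃ v', {w | w.2.1 u = u'} ∩ ({w | w.2.1 v = v'} ∩
          {w | (f w.1.1).1 u v = (f w.1.2).1 u' v'}) := by
      ext w; simp
    change MeasurableSet {w : (Z × Z) × ((ℕ → ℕ) × (ℕ → ℕ)) |
      ∀ u v, (f w.1.1).1 u v = (f w.1.2).1 (w.2.1 u) (w.2.1 v)}
    rw [this]
    exact MeasurableSet.iInter fun u => MeasurableSet.iInter fun v => MeasurableSet.iUnion fun u' =>
      MeasurableSet.iUnion fun v' => (hev1 u u').inter ((hev1 v v').inter (hg u v u' v'))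
  · have : {w : (Z × Z) × ((ℕ → ℕ) × (ℕ → ℕ)) |
        ∀ l : List ℕ, (f w.1.1).2 l = (f w.1.2).2 (l.map w.2.1)} =
        ⋂ l : List ℕ, ⋃ m : List ℕ, {w | l.map w.2.1 = m} ∩
          {w | (f w.1.1).2 l = (f w.1.2).2 m} := by
      ext w; simp
    change MeasurableSet {w : (Z × Z) × ((ℕ → ℕ) × (ℕ → ℕ)) |
      ∀ l : List ℕ, (f w.1.1).2 l = (f w.1.2).2 (l.map w.2.1)}
    rw [this]
    refine MeasurableSet.iInter fun l => MeasurableSet.iUnion fun m => (hl l m).inter ?_
    exact measurableSet_eq_fun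
      ((measurable_pi_apply l).comp (measurable_snd.comp hf1))
      ((measurable_pi_apply m).comp (measurable_snd.comp hf2))

private lemma analyticSet_isoT {C : Type} [MeasurableSpace C] [StandardBorelSpace C]
    (f : (ℕ → Bool) → St C) (hf : Measurable f) :
    MeasureTheory.AnalyticSet {w : (ℕ → Bool) × (ℕ → Bool) | Iso (f w.1) (f w.2)} := by
  have h := Pool.Agent.H71.DST.analyticSet_proj (measurableSet_isoH f hf)
  convert h using 1
  ext w
  constructor
  · rintro ⟨σ, -, h1, h2⟩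
    exact ⟨(σ, σ.symm), fun n => σ.apply_symm_apply n, fun n => σ.symm_apply_apply n, h1, h2⟩
  · rintro ⟨⟨φ, ψ⟩, h1, h2, h3, h4⟩
    exact ⟨⟨φ, ψ, h2, h1⟩, by simp, h3, h4⟩

theorem pf_NFM {C : Type} [MeasurableSpace C] [StandardBorelSpace C] : NFM C := by
  intro X hP f a hf hX
  by_contra hcon
  push Not at hcon
  apply hP
  obtain ⟨g, hg, -, hgR⟩ := Pool.Agent.H71.DST.exists_perfect_of_countable_sections
    (X := ℕ → Bool) (analyticSet_isoT f hf) (by
      intro u
      have hsub : {v | (u, v) ∈ {w : (ℕ → Bool) × (ℕ → Bool) | Iso (f w.1) (f w.2)}} ⊆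
          ⋃ b : List ℕ, {v | ∃ h : Equiv.Perm ℕ, b.map h = a ∧ IsoH h (f u) (f v)} := by
        rintro v ⟨h, -, h1, h2⟩
        refine mem_iUnion.2 ⟨a.map h.symm, h, ?_, h1, h2⟩
        rw [List.map_map, show (h : ℕ → ℕ) ∘ h.symm = id by funext x; simp, List.map_id]
      refine (countable_iUnion fun b => Set.Subsingleton.countable ?_).mono hsub
      rintro v ⟨h, hb, h1, h2⟩ w ⟨h', hb', h1', h2'⟩
      by_contra hvw
      apply hcon v w hvw
      refine ⟨h.symm.trans h', ?_, ?_, ?_⟩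
      · intro z hz
        rw [← hb] at hz
        obtain ⟨x, hx, rfl⟩ := List.mem_map.1 hz
        have h3 : b.map h = b.map h' := hb.trans hb'.symm
        have h4 := (List.map_inj_left.1 h3) x hx
        show h' (h.symm (h x)) = h x
        rw [Equiv.symm_apply_apply, h4]
      · intro x z
        have h3 := h1 (h.symm x) (h.symm z)
        have h4 := h1' (h.symm x) (h.symm z)
        simp only [Equiv.apply_symm_apply] at h3
        simp only [Equiv.trans_apply]
        rw [← h3, ← h4]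
      · intro l
        have h3 := h2 (l.map h.symm)
        have h4 := h2' (l.map h.symm)
        rw [List.map_map, show (h : ℕ → ℕ) ∘ h.symm = id by funext x; simp, List.map_id] at h3
        rw [← h3, h4, List.map_map]
        rfl)
  exact ⟨fun u => f (g u), hf.comp hg.measurable, fun u => hX _, fun u v huv => hgR u v huv⟩

end Pool.Agent.TK
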