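import Pool.Agent.H75.TK.BF

/-!
# Scott clocks and isomorphisms
-/

set_option autoImplicit false

open Set

namespace Pool.Agent.H75.TK

variable {C : Type*} {c c' c'' : List ℕ → C} {D D' D'' : Set ℕ} {r s : Clk} {p q : Pos}

lemma EQ.bf (h : EQ c c' D D' p) (r : Clk) : BF c c' D D' r p := h r

lemma EQ.mono_pos (h : EQ c c' D D' q) (hpq : ∀ x ∈ p, x ∈ q) : EQ c c' D D' p :=
  fun r => (h r).mono_pos hpq

lemma EQ.refl (c : List ℕ → C) (D : Set ℕ) (a : List ℕ) :
    EQ c c D D (a.map fun x => (x, x)) := fun r => BF.refl c D r a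

lemma EQ.trans {t : List (ℕ × ℕ × ℕ)} (h1 : EQ c c' D D' (pr12 t))
    (h2 : EQ c' c'' D' D'' (pr23 t)) : EQ c c'' D D'' (pr13 t) := fun r => (h1 r).trans (h2 r)

/-- playing a list of moves in the second structure -/
lemma play_back (e : Pos) (he : ∀ x ∈ e, x.2 ∈ D') :
    ∀ p : Pos, BF c c' D D' (Clk.addn s e.length) p →
      ∃ t : List (ℕ × ℕ × ℕ), pr13 t = e ∧ (∀ x ∈ t, x.2.1 ∈ D) ∧
        BF c c' D D' s (pr23 t ++ p) := by
  induction e with
  | nil => intro p h; exact ⟨[], rfl, by simp, h⟩
  | cons z e ih =>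
    intro p h
    rw [List.length_cons, Clk.addn_succ] at h
    obtain ⟨x, hx, h1⟩ := h.back 0 (he z List.mem_cons_self)
    obtain ⟨t, ht, htD, h2⟩ := ih (fun x hx => he x (List.mem_cons_of_mem _ hx)) _ h1
    refine ⟨(z.1, x, z.2) :: t, ?_, ?_, ?_⟩
    · simp only [pr13, List.map_cons] at ht ⊢
      rw [ht]
    · intro y hy
      rcases List.mem_cons.1 hy with rfl | hy
      · exact hx
      · exact htD y hy
    · refine h2.mono_pos ?_
      intro y hy
      simp only [pr23, List.map_cons, List.cons_append, List.mem_cons, List.mem_append] at hy ⊢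
      tauto

/-- the finitely branching tree of positions is countable: one clock separates the
inequivalent tuples of a structure -/
lemma exists_sep_clock (c : List ℕ → C) (D : Set ℕ) :
    ∃ r, ∀ q : Pos, BF c c D D r q → EQ c c D D q := by
  have h : ∀ q : Pos, ∃ r, BF c c D D r q → EQ c c D D q := by
    intro q
    by_cases hq : EQ c c D D q
    · exact ⟨.zero, fun _ => hq⟩
    · unfold EQ at hq
      push Not at hq
      obtain ⟨r, hr⟩ := hq
      exact ⟨r, fun h => (hr h).elim⟩
  choose f hf using h
  obtain ⟨e, he⟩ := exists_surjective_nat Pos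
  refine ⟨.mk fun n => f (e n), fun q hq => ?_⟩
  obtain ⟨n, rfl⟩ := he q
  exact hf _ (hq.mono_clk (Clk.child_le (fun n => f (e n)) n))

/-- the system of the pairs of tuples equivalent at the separating clock -/
lemma EQ_of_sep {r : Clk} (hr : ∀ q : Pos, BF c c D D r q → EQ c c D D q) {p : Pos}
    (hp : BF c c' D D' (Clk.addω r) p) : EQ c c' D D' p := by
  suffices H : ∀ s : Clk, ∀ e : Pos, (∀ x ∈ e, x.1 ∈ D ∧ x.2 ∈ D') →
      BF c c' D D' r (e ++ p) → BF c c' D D' s (e ++ p) by
    intro s
    exact H s [] (by simp) (hp.mono_clk (Clk.le_addω r))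
  -- the main step
  have key : ∀ e : Pos, (∀ x ∈ e, x.1 ∈ D ∧ x.2 ∈ D') → BF c c' D D' r (e ++ p) →
      ∃ t : List (ℕ × ℕ × ℕ), pr13 t = e ∧
        EQ c c D D (pr12 t ++ p.map fun x => (x.1, x.1)) ∧
        BF c c' D D' (Clk.succ r) (pr23 t ++ p) := by
    intro e he h
    have h1 : BF c c' D D' (Clk.addn (Clk.succ r) e.length) p := by
      refine hp.mono_clk ?_
      have : Clk.addn (Clk.succ r) e.length = Clk.addn r (e.length + 1) := by
        unfold Clk.addn
        rw [Function.iterate_succ_apply]
      rw [this]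
      exact Clk.addn_le_addω r _
    obtain ⟨t, ht, htD, h2⟩ := play_back e (fun x hx => (he x hx).2) p h1
    refine ⟨t, ht, hr _ ?_, h2⟩
    -- compose `(e.1, ȳ)` with `(ȳ, x̄')`
    have h3 := (h2.mono_clk (Clk.le_succ r)).symm
    have h4 := BF.trans (t := (t.map fun x => (x.1, x.2.2, x.2.1)) ++
      p.map fun x => (x.1, x.2, x.1)) (c := c) (c' := c') (c'' := c) (D := D) (D' := D')
      (D'' := D) (r := r) ?_ ?_
    · refine h4.mono_pos ?_
      intro x hx
      simpa [pr12, pr13, pr23, List.map_append, List.map_map, Function.comp_def] using hx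
    · refine h.mono_pos ?_
      intro x hx
      rw [← ht]
      simpa [pr12, pr13, pr23, List.map_append, List.map_map, Function.comp_def] using hx
    · refine h3.mono_pos ?_
      intro x hx
      simpa [pr12, pr13, pr23, List.map_append, List.map_map, Function.comp_def,
        Prod.swap] using hx
  intro s
  induction s with
  | zero => intro e _ h; exact h.atom
  | mk f ih =>
    intro e he h
    rw [BF_mk]
    refine ⟨h.atom, fun n => ⟨fun x hx => ?_, fun y hy => ?_⟩⟩
    · obtain ⟨t, ht, h1, h2⟩ := key e he h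
      obtain ⟨x', hx', h3⟩ := h1.forth hx
      obtain ⟨y, hy, h4⟩ := h2.forth 0 hx'
      refine ⟨y, hy, ih n ((x, y) :: e) ?_ ?_⟩
      · intro z hz
        rcases List.mem_cons.1 hz with rfl | hz
        · exact ⟨hx, hy⟩
        · exact he z hz
      · have h5 := BF.trans (t := (x, x', y) :: (t ++ p.map fun x => (x.1, x.1, x.2)))
          (c := c) (c' := c) (c'' := c') (D := D) (D' := D) (D'' := D') (r := r) ?_ ?_
        · refine h5.mono_pos ?_
          intro z hz
          rw [← ht] at hz
          simpa [pr12, pr13, pr23, List.map_append, List.map_map, Function.comp_def] using hz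
        · refine (h3 r).mono_pos ?_
          intro z hz
          simpa [pr12, pr13, pr23, List.map_append, List.map_map, Function.comp_def] using hz
        · refine h4.mono_pos ?_
          intro z hz
          simpa [pr12, pr13, pr23, List.map_append, List.map_map, Function.comp_def] using hz
    · obtain ⟨t, ht, h1, h2⟩ := key e he h
      obtain ⟨x', hx', h4⟩ := h2.back 0 hy
      obtain ⟨x, hx, h3⟩ := h1.back hx'
      refine ⟨x, hx, ih n ((x, y) :: e) ?_ ?_⟩
      · intro z hz
        rcases List.mem_cons.1 hz with rfl | hz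
        · exact ⟨hx, hy⟩
        · exact he z hz
      · have h5 := BF.trans (t := (x, x', y) :: (t ++ p.map fun x => (x.1, x.1, x.2)))
          (c := c) (c' := c) (c'' := c') (D := D) (D' := D) (D'' := D') (r := r) ?_ ?_
        · refine h5.mono_pos ?_
          intro z hz
          rw [← ht] at hz
          simpa [pr12, pr13, pr23, List.map_append, List.map_map, Function.comp_def] using hz
        · refine (h3 r).mono_pos ?_
          intro z hz
          simpa [pr12, pr13, pr23, List.map_append, List.map_map, Function.comp_def] using hz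
        · refine h4.mono_pos ?_
          intro z hz
          simpa [pr12, pr13, pr23, List.map_append, List.map_map, Function.comp_def] using hz

/-- Scott clock of a structure with moves in `D` (works for all boundaries at once) -/
theorem exists_scott_clock (c : List ℕ → C) (D : Set ℕ) :
    ∃ r, ∀ (c' : List ℕ → C) (D' : Set ℕ) (p : Pos), BF c c' D D' r p → EQ c c' D D' p := by
  obtain ⟨r, hr⟩ := exists_sep_clock c D
  exact ⟨Clk.addω r, fun c' D' p h => EQ_of_sep hr h⟩

/-- common Scott clock of countably many structures -/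
theorem exists_scott_clock_seq (c : ℕ → List ℕ → C) (D : ℕ → Set ℕ) :
    ∃ r, ∀ n, ∀ (c' : List ℕ → C) (D' : Set ℕ) (p : Pos),
      BF (c n) c' (D n) D' r p → EQ (c n) c' (D n) D' p := by
  choose f hf using fun n => exists_scott_clock (c n) (D n)
  exact ⟨.mk f, fun n c' D' p h => hf n c' D' p (h.mono_clk (Clk.child_le f n))⟩

/-- common upper bound of countably many clocks -/
lemma exists_clk_bound {ι : Type*} [Countable ι] (f : ι → Clk) : ∃ r, ∀ i, Clk.le (f i) r := by
  rcases isEmpty_or_nonempty ι with h | h
  · exact ⟨.zero, fun i => h.elim i⟩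
  · obtain ⟨e, he⟩ := exists_surjective_nat ι
    refine ⟨.mk fun n => f (e n), fun i => ?_⟩
    obtain ⟨n, rfl⟩ := he i
    exact Clk.child_le (fun n => f (e n)) n

end Pool.Agent.H75.TK
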