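import Pool.Agent.H75.TK.Iso
import Pool.Agent.H59.TV.Smooth
import Pool.Agent.H71.CC

/-!
# Thin classes: countably many types for every countable family of invariant properties of tuples
-/

set_option autoImplicit false

open Set

namespace Pool.Agent.H75.TK

variable {C : Type*}

/-- isomorphism of structures on `ℕ` -/
def IsoC (c c' : List ℕ → C) : Prop := ∃ σ : Equiv.Perm ℕ, ∀ l, c' (l.map σ) = c l

/-- perfectly many isomorphism types in `X` -/
def PerfMany [MeasurableSpace C] (X : Set (List ℕ → C)) : Prop :=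
  ∃ f : (ℕ → Bool) → List ℕ → C, Measurable f ∧ (∀ u, f u ∈ X) ∧
    ∀ u v, u ≠ v → ¬ IsoC (f u) (f v)

section

variable [MeasurableSpace C] [StandardBorelSpace C]

lemma measurableSet_iso_rel {Z : Type*} [MeasurableSpace Z] (f : Z → List ℕ → C)
    (hf : Measurable f) :
    MeasurableSet {w : (Z × Z) × ((ℕ → ℕ) × (ℕ → ℕ)) |
      (∀ n, w.2.1 (w.2.2 n) = n) ∧ (∀ n, w.2.2 (w.2.1 n) = n) ∧
      ∀ l : List ℕ, f w.1.2 (l.map w.2.1) = f w.1.1 l} := by
  have hev1 : ∀ n m : ℕ, MeasurableSet {w : (Z × Z) × ((ℕ → ℕ) × (ℕ → ℕ)) | w.2.1 n = m} :=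
    fun n m => measurableSet_eq_fun
      ((measurable_pi_apply n).comp (measurable_fst.comp measurable_snd)) measurable_const
  have hev2 : ∀ n m : ℕ, MeasurableSet {w : (Z × Z) × ((ℕ → ℕ) × (ℕ → ℕ)) | w.2.2 n = m} :=
    fun n m => measurableSet_eq_fun
      ((measurable_pi_apply n).comp (measurable_snd.comp measurable_snd)) measurable_const
  have hl : ∀ l m : List ℕ,
      MeasurableSet {w : (Z × Z) × ((ℕ → ℕ) × (ℕ → ℕ)) | l.map w.2.1 = m} := by
    intro l
    induction l with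
    | nil => intro m; simp
    | cons a l ih =>
      intro m
      cases m with
      | nil => simp
      | cons b m =>
        have : {w : (Z × Z) × ((ℕ → ℕ) × (ℕ → ℕ)) | (a :: l).map w.2.1 = b :: m} =
            {w | w.2.1 a = b} ∩ {w | l.map w.2.1 = m} := by
          ext w; simp
        rw [this]
        exact (hev1 a b).inter (ih m)
  refine MeasurableSet.inter ?_ (MeasurableSet.inter ?_ ?_)
  · have : {w : (Z × Z) × ((ℕ → ℕ) × (ℕ → ℕ)) | ∀ n, w.2.1 (w.2.2 n) = n} =
        ⋂ n, ⋃ m, {w | w.2.2 n = m} ∩ {w | w.2.1 m = n} := by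
      ext w; simp
    change MeasurableSet {w : (Z × Z) × ((ℕ → ℕ) × (ℕ → ℕ)) | ∀ n, w.2.1 (w.2.2 n) = n}
    rw [this]
    exact MeasurableSet.iInter fun n => MeasurableSet.iUnion fun m => (hev2 n m).inter (hev1 m n)
  · have : {w : (Z × Z) × ((ℕ → ℕ) × (ℕ → ℕ)) | ∀ n, w.2.2 (w.2.1 n) = n} =
        ⋂ n, ⋃ m, {w | w.2.1 n = m} ∩ {w | w.2.2 m = n} := by
      ext w; simp
    change MeasurableSet {w : (Z × Z) × ((ℕ → ℕ) × (ℕ → ℕ)) | ∀ n, w.2.2 (w.2.1 n) = n}
    rw [this]
    exact MeasurableSet.iInter fun n => MeasurableSet.iUnion fun m => (hev1 n m).inter (hev2 m n)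
  · have : {w : (Z × Z) × ((ℕ → ℕ) × (ℕ → ℕ)) |
        ∀ l : List ℕ, f w.1.2 (l.map w.2.1) = f w.1.1 l} =
        ⋂ l : List ℕ, ⋃ m : List ℕ, {w | l.map w.2.1 = m} ∩ {w | f w.1.2 m = f w.1.1 l} := by
      ext w; simp
    change MeasurableSet {w : (Z × Z) × ((ℕ → ℕ) × (ℕ → ℕ)) |
      ∀ l : List ℕ, f w.1.2 (l.map w.2.1) = f w.1.1 l}
    rw [this]
    refine MeasurableSet.iInter fun l => MeasurableSet.iUnion fun m => (hl l m).inter ?_
    exact measurableSet_eq_fun
      ((measurable_pi_apply m).comp (hf.comp (measurable_snd.comp measurable_fst)))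
      ((measurable_pi_apply l).comp (hf.comp (measurable_fst.comp measurable_fst)))

lemma analyticSet_iso (f : (ℕ → Bool) → List ℕ → C) (hf : Measurable f) :
    MeasureTheory.AnalyticSet {w : (ℕ → Bool) × (ℕ → Bool) | IsoC (f w.1) (f w.2)} := by
  have h := Pool.Agent.H71.DST.analyticSet_proj (measurableSet_iso_rel f hf)
  convert h using 1
  ext w
  constructor
  · rintro ⟨σ, hσ⟩
    exact ⟨(σ, σ.symm), fun n => σ.apply_symm_apply n, fun n => σ.symm_apply_apply n, hσ⟩
  · rintro ⟨⟨φ, ψ⟩, h1, h2, h3⟩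
    exact ⟨⟨φ, ψ, h2, h1⟩, h3⟩

/-- If the classes of `u ↦ f u` up to isomorphism are countable, there are perfectly many types. -/
theorem perfMany_of_countable {X : Set (List ℕ → C)} (f : (ℕ → Bool) → List ℕ → C)
    (hf : Measurable f) (hX : ∀ u, f u ∈ X)
    (hc : ∀ u, {v | IsoC (f u) (f v)}.Countable) : PerfMany X := by
  obtain ⟨g, hg, -, hgR⟩ := Pool.Agent.H71.DST.exists_perfect_of_countable_sections
    (X := ℕ → Bool) (analyticSet_iso f hf) hc
  exact ⟨fun u => f (g u), hf.comp hg.measurable, fun u => hX _, fun u v huv => hgR u v huv⟩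

/-- Countably many invariant properties of tuples distinguish only countably many members of a
thin class. -/
theorem thin_reps {I : Type*} [Countable I] {X : Set (List ℕ → C)} (hX : MeasurableSet X)
    (hthin : ¬ PerfMany X) (Φ : List ℕ → I → (List ℕ → C) → Prop)
    (hm : ∀ a i, MeasurableSet {c | Φ a i c})
    (hiso : ∀ (σ : Equiv.Perm ℕ) (c c' : List ℕ → C), (∀ l, c' (l.map σ) = c l) →
      ∀ a i, Φ (a.map σ) i c' ↔ Φ a i c) (a : List ℕ) :
    ∃ R : Set (List ℕ → C), R.Countable ∧ R ⊆ X ∧ ∀ c ∈ X, ∃ c0 ∈ R, ∀ i, Φ a i c ↔ Φ a i c0 := by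
  classical
  obtain ⟨enc, henc⟩ := exists_injective_nat I
  let Θ : List ℕ → (List ℕ → C) → ℕ → Bool := fun b c n => decide (∃ i, enc i = n ∧ Φ b i c)
  have hΘm : ∀ b, Measurable (Θ b) := by
    intro b
    refine measurable_pi_iff.2 fun n => ?_
    refine measurable_to_bool ?_
    have : (fun c => Θ b c n) ⁻¹' {true} = ⋃ i ∈ {i | enc i = n}, {c | Φ b i c} := by
      ext c
      simp [Θ]
    rw [this]
    exact MeasurableSet.biUnion (to_countable _) fun i _ => hm b i
  have hΘ : ∀ b c b' c', Θ b c = Θ b' c' → ∀ i, Φ b i c ↔ Φ b' i c' := by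
    intro b c b' c' h i
    have h1 := congrFun h (enc i)
    have h2 : (∃ j, enc j = enc i ∧ Φ b j c) ↔ ∃ j, enc j = enc i ∧ Φ b' j c' := by
      simpa [Θ] using h1
    constructor
    · intro h3
      obtain ⟨j, hj, h4⟩ := h2.1 ⟨i, rfl, h3⟩
      rwa [henc hj] at h4
    · intro h3
      obtain ⟨j, hj, h4⟩ := h2.2 ⟨i, rfl, h3⟩
      rwa [henc hj] at h4
  have hcount : (Θ a '' X).Countable := by
    by_contra hunc
    apply hthin
    have : StandardBorelSpace X := hX.standardBorel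
    obtain ⟨f, hf, hfΘ⟩ := Pool.Agent.H59.TV.exists_perfect_of_smooth
      (fun x : X => Θ a x) ((hΘm a).comp measurable_subtype_coe) (by
        rwa [show range (fun x : X => Θ a x) = Θ a '' X by ext; simp])
    refine perfMany_of_countable (fun u => (f u : List ℕ → C))
      (measurable_subtype_coe.comp hf) (fun u => (f u).2) fun u => ?_
    have hsub : {v | IsoC (f u : List ℕ → C) (f v)} ⊆
        ⋃ b : List ℕ, {v | Θ a (f v) = Θ b (f u)} := by
      rintro v ⟨σ, hσ⟩
      refine mem_iUnion.2 ⟨a.map σ.symm, ?_⟩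
      have h1 : ∀ i, Φ a i (f v) ↔ Φ (a.map σ.symm) i (f u) := by
        intro i
        have h2 := hiso σ _ _ hσ (a.map σ.symm) i
        rwa [List.map_map, show (σ : ℕ → ℕ) ∘ σ.symm = id by
          funext x; simp, List.map_id] at h2
      show Θ a (f v) = Θ (a.map σ.symm) (f u)
      funext n
      simp only [Θ, h1]
    refine (countable_iUnion fun b => ?_).mono hsub
    refine Set.Subsingleton.countable ?_
    intro v hv w hw
    by_contra hvw
    exact hfΘ v w hvw (hv.trans hw.symm)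
  have hch : ∀ z : (Θ a '' X : Set (ℕ → Bool)), ∃ c, c ∈ X ∧ Θ a c = z := fun z => z.2
  choose g hgX hg using hch
  have : Countable (Θ a '' X : Set (ℕ → Bool)) := hcount.to_subtype
  refine ⟨range g, countable_range g, ?_, ?_⟩
  · rintro _ ⟨z, rfl⟩
    exact hgX z
  · intro c hc
    refine ⟨g ⟨Θ a c, c, hc, rfl⟩, ⟨_, rfl⟩, ?_⟩
    exact hΘ _ _ _ _ (hg ⟨Θ a c, c, hc, rfl⟩).symm

end

end Pool.Agent.H75.TK
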