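import Pool.Agent.H75.TK.Thin

/-!
# A thin class has only countably many types of tuples for every clock
-/

set_option autoImplicit false

open Set

namespace Pool.Agent.H75.TK

variable {C : Type*}

/-- invariance of `BF` under isomorphisms of the left structure -/
lemma BF.perm_left {c c' c0 : List ℕ → C} {D' : Set ℕ} {r : Clk} {p : Pos} {σ : Equiv.Perm ℕ}
    (hσ : ∀ l, c' (l.map σ) = c l) {D : Set ℕ} (h : BF c c0 D D' r p) :
    BF c' c0 (σ '' D) D' r (p.map fun q => (σ q.1, q.2)) := by
  have h1 : EQ c' c (σ '' D) D ((p.map fun q => σ q.1).map fun x => (x, σ.symm x)) := by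
    refine EQ_of_map (φ := σ.symm) ?_ _ σ.symm.injective.injOn ?_
    · refine ⟨?_, σ.symm.injective.injOn, ?_⟩
      · rintro _ ⟨x, hx, rfl⟩
        simpa using hx
      · intro x hx
        exact ⟨σ x, ⟨x, hx, rfl⟩, by simp⟩
    · intro l _
      have := hσ (l.map σ.symm)
      rw [List.map_map, show (σ : ℕ → ℕ) ∘ σ.symm = id by funext x; simp, List.map_id] at this
      exact this
  have h2 := BF.trans (t := p.map fun q => (σ q.1, q.1, q.2)) (c := c') (c' := c) (c'' := c0)
    (D := σ '' D) (D' := D) (D'' := D') (r := r) ?_ ?_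
  · refine h2.mono_pos fun q hq => ?_
    simpa [pr13, List.map_map, Function.comp_def] using hq
  · refine (h1 r).mono_pos fun q hq => ?_
    simpa [pr12, List.map_map, Function.comp_def] using hq
  · refine h.mono_pos fun q hq => ?_
    simpa [pr23, List.map_map, Function.comp_def] using hq

lemma BF.perm_left_univ {c c' c0 : List ℕ → C} {D' : Set ℕ} {r : Clk} {p : Pos}
    {σ : Equiv.Perm ℕ} (hσ : ∀ l, c' (l.map σ) = c l) (h : BF c c0 univ D' r p) :
    BF c' c0 univ D' r (p.map fun q => (σ q.1, q.2)) := by
  have := h.perm_left hσ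
  rwa [image_univ, σ.surjective.range_eq] at this

lemma BF.perm_left_iff {c c' c0 : List ℕ → C} {D' : Set ℕ} {r : Clk} {p : Pos}
    {σ : Equiv.Perm ℕ} (hσ : ∀ l, c' (l.map σ) = c l) :
    BF c' c0 univ D' r (p.map fun q => (σ q.1, q.2)) ↔ BF c c0 univ D' r p := by
  refine ⟨fun h => ?_, fun h => h.perm_left_univ hσ⟩
  have h1 : ∀ l, c (l.map σ.symm) = c' l := by
    intro l
    have := hσ (l.map σ.symm)
    rw [List.map_map, show (σ : ℕ → ℕ) ∘ σ.symm = id by funext x; simp, List.map_id] at this
    exact this.symm
  have h2 := h.perm_left_univ h1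
  rw [List.map_map] at h2
  simpa [Function.comp_def] using h2

section

variable [MeasurableSpace C] [StandardBorelSpace C]

lemma measurableSet_atom (c0 : List ℕ → C) (p : Pos) :
    MeasurableSet {c : List ℕ → C | Atom c c0 p} := by
  have : {c : List ℕ → C | Atom c c0 p} =
      (⋂ l : Pos, {c | (∀ q ∈ l, q ∈ p) → c (l.map Prod.fst) = c0 (l.map Prod.snd)}) ∩
      {_c | ∀ q ∈ p, ∀ q' ∈ p, (q.1 = q'.1 ↔ q.2 = q'.2)} := by
    ext c
    simp [Atom]
  rw [this]
  refine (MeasurableSet.iInter fun l => ?_).inter (MeasurableSet.const _)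
  by_cases h : ∀ q ∈ l, q ∈ p
  · have : {c : List ℕ → C | (∀ q ∈ l, q ∈ p) → c (l.map Prod.fst) = c0 (l.map Prod.snd)} =
        (fun c : List ℕ → C => c (l.map Prod.fst)) ⁻¹' {c0 (l.map Prod.snd)} := by
      ext c
      simp only [mem_setOf_eq, mem_preimage, mem_singleton_iff]
      exact ⟨fun h1 => h1 h, fun h1 _ => h1⟩
    rw [this]
    exact (measurable_pi_apply _) (measurableSet_singleton _)
  · have : {c : List ℕ → C | (∀ q ∈ l, q ∈ p) → c (l.map Prod.fst) = c0 (l.map Prod.snd)} =
        univ := by
      ext c
      simp only [mem_setOf_eq, mem_univ, iff_true]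
      exact fun h1 => (h h1).elim
    rw [this]
    exact MeasurableSet.univ

/-- the set of structures equivalent to a given one at a given clock is Borel -/
lemma measurableSet_bf (c0 : List ℕ → C) (D D' : Set ℕ) (r : Clk) (p : Pos) :
    MeasurableSet {c : List ℕ → C | BF c c0 D D' r p} := by
  induction r generalizing p with
  | zero => exact measurableSet_atom c0 p
  | mk f ih =>
    have : {c : List ℕ → C | BF c c0 D D' (.mk f) p} = {c | Atom c c0 p} ∩
        ⋂ n, ((⋂ x ∈ D, ⋃ y ∈ D', {c | BF c c0 D D' (f n) ((x, y) :: p)}) ∩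
          ⋂ y ∈ D', ⋃ x ∈ D, {c | BF c c0 D D' (f n) ((x, y) :: p)}) := by
      ext c
      simp only [mem_setOf_eq, BF_mk, mem_inter_iff, mem_iInter, mem_iUnion, exists_prop]
    rw [this]
    refine (measurableSet_atom c0 p).inter (MeasurableSet.iInter fun n => ?_)
    refine MeasurableSet.inter ?_ ?_
    · exact MeasurableSet.biInter (to_countable _) fun x _ =>
        MeasurableSet.biUnion (to_countable _) fun y _ => ih n _
    · exact MeasurableSet.biInter (to_countable _) fun x _ =>
        MeasurableSet.biUnion (to_countable _) fun y _ => ih n _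

end

/-- the position which matches two lists -/
abbrev zipP (a b : List ℕ) : Pos := a.zip b

lemma zipP_self (a : List ℕ) : zipP a a = a.map fun x => (x, x) := by
  induction a with
  | nil => rfl
  | cons x a ih => simp only [zipP, List.zip_cons_cons, List.map_cons] at ih ⊢; rw [ih]

lemma mem_zipP_swap {a b : List ℕ} {q : ℕ × ℕ} :
    q ∈ (zipP a b).map Prod.swap ↔ q ∈ zipP b a := by
  rw [zipP, List.zip_swap]

/-- composition of matched lists -/
lemma BF.trans_zip {c c' c'' : List ℕ → C} {D D' D'' : Set ℕ} {r : Clk} {a a' a'' : List ℕ}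
    (h1 : a.length = a'.length) (h2 : a'.length = a''.length)
    (h : BF c c' D D' r (zipP a a')) (h' : BF c' c'' D' D'' r (zipP a' a'')) :
    BF c c'' D D'' r (zipP a a'') := by
  have h3 := BF.trans (t := a.zip (a'.zip a'')) (c := c) (c' := c') (c'' := c'') (D := D)
    (D' := D') (D'' := D'') (r := r)
  have e1 : pr12 (a.zip (a'.zip a'')) = zipP a a' := by
    clear h3 h h'
    induction a generalizing a' a'' with
    | nil => simp [pr12]
    | cons x a ih =>
      cases a' with
      | nil => simp at h1
      | cons y a' =>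
        cases a'' with
        | nil => simp at h2
        | cons z a'' =>
          have := ih (a' := a') (a'' := a'') (by simpa using h1) (by simpa using h2)
          simpa [pr12] using this
  have e2 : pr23 (a.zip (a'.zip a'')) = zipP a' a'' := by
    clear h3 h h' e1
    induction a generalizing a' a'' with
    | nil =>
      cases a' with
      | nil => simp [pr23]
      | cons y a' => simp at h1
    | cons x a ih =>
      cases a' with
      | nil => simp at h1
      | cons y a' =>
        cases a'' with
        | nil => simp at h2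
        | cons z a'' =>
          have := ih (a' := a') (a'' := a'') (by simpa using h1) (by simpa using h2)
          simpa [pr23] using this
  have e3 : pr13 (a.zip (a'.zip a'')) = zipP a a'' := by
    clear h3 h h' e1 e2
    induction a generalizing a' a'' with
    | nil => simp [pr13]
    | cons x a ih =>
      cases a' with
      | nil => simp at h1
      | cons y a' =>
        cases a'' with
        | nil => simp at h2
        | cons z a'' =>
          have := ih (a' := a') (a'' := a'') (by simpa using h1) (by simpa using h2)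
          simpa [pr13] using this
  rw [e1, e2, e3] at h3
  exact h3 h h'

lemma BF.symm_zip {c c' : List ℕ → C} {D D' : Set ℕ} {r : Clk} {a a' : List ℕ}
    (h : BF c c' D D' r (zipP a a')) : BF c' c D' D r (zipP a' a) :=
  h.symm.mono_pos fun _ hq => mem_zipP_swap.2 hq

end Pool.Agent.H75.TK
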